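import Mathlib
import Pool.Agent.R404.DZ.K

/-!
# Many products of zeta values of the same weight without relations of small height

For a degree `D ≥ 2` consider the products `ζ(n_1) ... ζ(n_D)` of the same weight `k = n_1 + ... + n_D`
with different arguments `n_i ≥ k / (2 D)`. For every large `k` there are at least `k ^ η` of them (with
`η` near `(D - 1) / (D + 1)`) such that no integer combination of them, not zero, with sum of the
absolute values of the coefficients at most `2 ^ (k ^ γ)` is equal to a real combination, with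
coefficients at most `C ^ k`, of arbitrarily many multiple zeta values of weight at most `κ k` with at
least `ε k` arguments `≥ 2`. In the conjectured structure of the algebra the products of different
zeta values at odd arguments are linearly independent over `ℚ` and are not in the span of the other
basis elements; here a growing number of monomials of degree `D` and of the same weight is treated.

The theorem is from the library (`Pool.Agent.R404.DZ`, helper404).
-/

set_option autoImplicit false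

namespace Pool.Agent.Results.MP_f3dc73_nt.ManyProducts

/-- `trunc [s_1, ..., s_r] m` is the sum of `∏ n_i ^ (-s_i)` over `m > n_1 > ... > n_r ≥ 1` -/
noncomputable def trunc : List ℕ → ℕ → ℝ
  | [], _ => 1
  | s :: l, m => ∑ j ∈ Finset.Ico 1 m, trunc l j / (j : ℝ) ^ s

/-- the multiple zeta value `ζ(s_1, ..., s_r)`, `s_1` belongs to the largest variable -/
noncomputable def mzv : List ℕ → ℝ
  | [] => 1
  | s :: l => ∑' m : ℕ, trunc l (m + 1) / ((m + 1 : ℕ) : ℝ) ^ s

/-- admissible indices: `(s_1, ..., s_r)` with `r ≥ 1`, `s_1 ≥ 2` and all `s_i ≥ 1` -/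
def AdmissibleIndex : List ℕ → Prop
  | [] => False
  | s :: l => 2 ≤ s ∧ ∀ t ∈ l, 1 ≤ t

/-- the number of arguments `≥ 2` -/
def height (w : List ℕ) : ℕ := w.countP (fun s => decide (2 ≤ s))

lemma trunc_eq (w : List ℕ) : ∀ m, trunc w m = Pool.Agent.Y760.ZG.hr w m := by
  induction w with
  | nil => intro m; rw [trunc, Pool.Agent.Y760.ZG.hr_nil]
  | cons s w ih =>
    intro m
    rw [trunc, Pool.Agent.Y760.ZG.hr_cons]
    exact Finset.sum_congr rfl fun j _ => by rw [ih]

lemma mzv_eq : mzv = Pool.Agent.Y760.ZG.mz := by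
  funext w
  cases w with
  | nil => rw [mzv, Pool.Agent.Y760.ZG.mz]
  | cons s w =>
    rw [mzv, Pool.Agent.Y760.ZG.mz]
    exact tsum_congr fun m => by rw [trunc_eq]

lemma adm_small {u : List ℕ} (h : AdmissibleIndex u) :
    (∀ m ∈ u, 1 ≤ m) ∧ ∀ x ∈ u.head?, 2 ≤ x := by
  cases u with
  | nil => exact h.elim
  | cons s l =>
    refine ⟨fun m hm => ?_, fun x hx => ?_⟩
    · rcases List.mem_cons.1 hm with rfl | hm
      · exact le_trans (by norm_num) h.1
      · exact h.2 m hm
    · rw [List.head?_cons, Option.mem_def, Option.some.injEq] at hx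
      rw [← hx]
      exact h.1

/-- Let `D ≥ 2`, `θ > 0`, `(D + 1) θ < 1`, `γ + D θ < 1`, `θ < ε`, `0 < η < (D - 1) θ` and let `κ`, `C` be
real. For every large `k` there is a set `T` of at least `k ^ η` increasing sequences
`n_1 < ... < n_D` with sum `k` and `n_i ≥ k / (2 D)` with the following property. For all integers
`c_n` (`n ∈ T`), not all zero, with `∑ |c_n| ≤ 2 ^ (k ^ γ)`, all finite sets `H` of admissible indices of
weight at most `κ k` with at least `ε k` arguments `≥ 2` and all real `b_h` with `|b_h| ≤ C ^ k`: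
`|∑_T c_n ζ(n_1) ... ζ(n_D) - ∑_H b_h ζ(h)| > k ^ (-ε k)`. -/
theorem result (D : ℕ) (hD : 2 ≤ D) (θ γ ε κ C η : ℝ) (hθ : 0 < θ) (hθD : (D + 1) * θ < 1)
    (hγ : γ + D * θ < 1) (hε : θ < ε) (hη : 0 < η) (hηθ : η < (D - 1) * θ) :
    ∃ k0 : ℕ, ∀ k : ℕ, k0 ≤ k → ∃ T : Finset (Fin D → ℕ), (k : ℝ) ^ η ≤ T.card ∧
      (∀ n ∈ T, StrictMono n ∧ ∑ j, n j = k ∧ ∀ j, k ≤ 2 * D * n j) ∧
      ∀ c : (Fin D → ℕ) → ℤ, (∃ n ∈ T, c n ≠ 0) → ∑ n ∈ T, |(c n : ℝ)| ≤ (2 : ℝ) ^ ((k : ℝ) ^ γ) →
      ∀ H : Finset (List ℕ),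
      (∀ h ∈ H, AdmissibleIndex h ∧ (h.sum : ℝ) ≤ κ * k ∧ ε * k ≤ height h) →
      ∀ b : List ℕ → ℝ, (∀ h ∈ H, |b h| ≤ C ^ k) →
      ((k : ℝ) ^ (ε * k))⁻¹ <
        |∑ n ∈ T, (c n : ℝ) * ∏ j, (∑' m : ℕ, 1 / ((m + 1 : ℕ) : ℝ) ^ (n j)) -
          ∑ h ∈ H, b h * mzv h| := by
  rw [mzv_eq]
  obtain ⟨k0, h0⟩ := Pool.Agent.R404.DZ.asyK D hD θ γ ε κ C η hθ hθD hγ hε hη hηθ
  refine ⟨k0, fun k hk => ?_⟩
  obtain ⟨T, hT1, hT2, hT3⟩ := h0 k hk
  exact ⟨T, hT1, hT2, fun c hc hlen H hH b hb => hT3 c hc hlen H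
    (fun h hh => ⟨(adm_small (hH h hh).1).1, (adm_small (hH h hh).1).2, (hH h hh).2.1,
      (hH h hh).2.2⟩) b hb⟩

end Pool.Agent.Results.MP_f3dc73_nt.ManyProducts
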