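import Mathlib
import Pool.Agent.N778.MZ.Pol

set_option autoImplicit false

/-!
# Polynomials in multiple zeta values: at most one exception

For a sequence `w = (k_1, …, k_r)`, `r ≥ 1`, of positive integers with `k_1 ≥ 2` (a word, in this file) and `j ≥ 0` let
`H_j(w)` be the truncated multiple zeta value `∑ 1/(m_1^{k_1} … m_r^{k_r})`, the sum over `j ≥ m_1 > … > m_r ≥ 1` (`m_1` is the
largest variable, so the sequences are reversed in comparison with the problem page), and `ζ(w)` the multiple zeta value.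

Let `P` be a polynomial with coefficients in a field `𝓚` (see below; it contains all algebraic numbers and the
exponentials of algebraic numbers), and let `w_1, …, w_m` be words such that the sequence `P(H_j(w_1), …, H_j(w_m))`,
`j ≥ 0`, is not constant. Let `M_P(x) = exp (-x) * ∑_j x^j/j! * P(H_j(w_1), …, H_j(w_m))` be the Poisson mean of this sequence.
So `M_P(x) → P(ζ(w_1), …, ζ(w_m))` for real `x → ∞`, and `M_P(0) = P(0, …, 0)`.

The field `𝓚`: for complex numbers `a_1, …, a_n` with `a_n ≠ 0` let `I(a_1, …, a_n)` be the iterated integral of the forms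
`ω_{a_1}(t_1), …, ω_{a_n}(t_n)` over `1 > t_1 > … > t_n > 0`, where `ω_0 = dt / t` and `ω_a = (exp (a t) - 1) dt / t` for
`a ≠ 0`. Let `𝓚` be the field which is generated by all algebraic numbers, all numbers `exp b`, `b` algebraic, and
all numbers `I(a_1, …, a_n)` with algebraic `a_1, …, a_n`, no two nonzero ones of which have sum zero. Let `X` be a set of
algebraic numbers `x` such that `x + y ≠ 0` for all `x, y` in `X` (for example the set of the positive algebraic numbers).

(1) `M_P(x)` is transcendental over `𝓚` for all `x` in `X`.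

(2) For every complex number `z` there is at most one `x` in `X ∪ {0}` such that `z - M_P(x)` is algebraic over `𝓚`.

The most important case is `z = P(ζ(w_1), …, ζ(w_m))`. Then `z - M_P(x)` is the Poisson mean of the differences
`P(ζ(w_1), …, ζ(w_m)) - P(H_j(w_1), …, H_j(w_m))`, and for `x = 0` it is `P(ζ(w_1), …, ζ(w_m)) - P(0, …, 0)`. So: if a polynomial
relation `P(ζ(w_1), …, ζ(w_m)) = 0` between multiple zeta values holds, or only `P(ζ(w_1), …, ζ(w_m))` is algebraic, for
a polynomial for which the sequence is not constant, then all the damped values at the points of `X` are transcendental over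
`𝓚`. The structure of the algebra of multiple zeta values is determined by the polynomials `P` for which `x = 0` is the exceptional
point; for every polynomial there is no other one in `X` then.

By a theorem of Hoffman (quasi-symmetric functions) the sequence is not constant for all nonconstant polynomials `P` if
the words are different Lyndon words.

Proof. The truncated multiple zeta values satisfy the stuffle product, so the sequence is a linear combination of `1` and
of the sequences `H_j(w)`, `w` a word, with coefficients in `𝓚`, which are not all zero. Now the differences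
`M_P(x) - M_P(y)` are linear combinations of the Poisson means `S_w` of the `H_j(w)`, and these are transcendental over `𝓚` by
my theorem on linear forms (page MP_c2d7b4_nt).
-/

namespace Pool.Agent.Results.MP_f3dc73_nt.PolynomialsOneException

open Filter Topology Set

/-- the truncated multiple zeta value: `H_j(k_1, …, k_r)` is the sum over `j ≥ m_1 > … > m_r ≥ 1` -/
noncomputable def H : List ℕ → ℕ → ℂ
  | [], _ => 1
  | k :: w, j => ∑ i ∈ Finset.range j, H w i / ((i : ℂ) + 1) ^ k

/-- the multiple zeta value (here `m_1 = i + 1`) -/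
noncomputable def zeta : List ℕ → ℂ
  | [] => 1
  | k :: w => ∑' i : ℕ, H w i / ((i : ℂ) + 1) ^ k

/-- a word: a nonempty sequence of positive integers, the first one is at least `2` -/
def Word (w : List ℕ) : Prop := 2 ≤ w.headD 0 ∧ ∀ k ∈ w, 1 ≤ k

/-- the iterated integral of `ω_{a_1}(t_1), …, ω_{a_n}(t_n)` over `t > t_1 > … > t_n > 0` -/
noncomputable def iterated : List ℂ → ℝ → ℂ
  | [], _ => 1
  | a :: v, t => ∫ s in (0 : ℝ)..t, (if a = 0 then 1 else Complex.exp (a * s) - 1) * iterated v s / s

/-- `I(a_1, …, a_n)` -/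
noncomputable def I (w : List ℂ) : ℂ := iterated w 1

/-- the entries are algebraic, the last one is not zero, no two nonzero entries have sum zero -/
def Admissible (w : List ℂ) : Prop :=
  (∀ a ∈ w, IsAlgebraic ℚ a) ∧ (∀ h : w ≠ [], w.getLast h ≠ 0) ∧ ∀ a ∈ w, a ≠ 0 → -a ∉ w

/-- the field `𝓚` -/
noncomputable def baseField : IntermediateField ℚ ℂ := IntermediateField.adjoin ℚ
  ({z | IsAlgebraic ℚ z} ∪ {z | ∃ b : ℂ, IsAlgebraic ℚ b ∧ z = Complex.exp b} ∪
    {z | ∃ w : List ℂ, Admissible w ∧ z = I w})

/-- the condition on the set `X` -/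
def Points (X : Set ℂ) : Prop := ∀ x ∈ X, IsAlgebraic ℚ x ∧ ∀ y ∈ X, x + y ≠ 0

/-- the value of a polynomial -/
noncomputable def evalAt {m : ℕ} (P : MvPolynomial (Fin m) baseField) (z : Fin m → ℂ) : ℂ := MvPolynomial.aeval z P

/-- `M_P(x)` -/
noncomputable def M {m : ℕ} (P : MvPolynomial (Fin m) baseField) (w : Fin m → List ℕ) (x : ℂ) : ℂ :=
  Complex.exp (-x) * ∑' j : ℕ, x ^ j / j.factorial * evalAt P (fun i => H (w i) j)

open Pool.Agent.N902.EW (II KK)
open Pool.Agent.N778

theorem iterated_eq (w : List ℂ) : ∀ t : ℝ, iterated w t = II w t := by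
  induction w with
  | nil => intro t; rfl
  | cons a v ih =>
    intro t
    rw [iterated, II]
    refine intervalIntegral.integral_congr fun s _ => ?_
    show (if a = 0 then 1 else Complex.exp (a * s) - 1) * iterated v s / s = _
    rw [ih]

theorem baseField_eq : baseField = KK := by
  rw [baseField, KK]
  congr 2
  ext z
  constructor
  · rintro ⟨w, hw, rfl⟩
    exact ⟨w, ⟨hw.1, hw.2.1⟩, hw.2.2, iterated_eq w 1⟩
  · rintro ⟨w, hw, hno, rfl⟩
    exact ⟨w, ⟨hw.1, hw.2, hno⟩, (iterated_eq w 1).symm⟩

theorem H_eq (w : List ℕ) (j : ℕ) : H w j = MZ.H w j := by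
  induction w generalizing j with
  | nil => rfl
  | cons k w ih =>
    rw [H, MZ.H]
    exact Finset.sum_congr rfl fun i _ => by rw [ih]

theorem zeta_eq (w : List ℕ) : zeta w = MZ.zt w := by
  rcases w with _ | ⟨k, w⟩
  · rfl
  · rw [zeta, MZ.zt]
    exact tsum_congr fun i => by rw [H_eq]

theorem word_ad {w : List ℕ} (h : Word w) : MZ.AdW w := by
  rcases w with _ | ⟨k, w⟩
  · exact absurd h.1 (by simp)
  · exact ⟨h.1, fun l hl => h.2 l (List.mem_cons_of_mem _ hl)⟩

section

variable {m : ℕ} {w : Fin m → List ℕ} (hw : ∀ i, Word (w i)) (P : MvPolynomial (Fin m) baseField)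

include hw

theorem mem_adj : (fun j => evalAt P (fun i => H (w i) j)) ∈ Algebra.adjoin KK MZ.Q2 := by
  rw [← baseField_eq]
  have h1 : (fun j => evalAt P (fun i => H (w i) j)) =
      MvPolynomial.aeval (fun i => (fun j => MZ.H (w i) j : ℕ → ℂ)) P := by
    funext j
    have h2 := MvPolynomial.comp_aeval_apply (fun i => (fun j => MZ.H (w i) j : ℕ → ℂ))
      (Pi.evalAlgHom baseField (fun _ : ℕ => ℂ) j) P
    have h3 : (Pi.evalAlgHom baseField (fun _ : ℕ => ℂ) j)
        (MvPolynomial.aeval (fun i => (fun j => MZ.H (w i) j : ℕ → ℂ)) P) =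
        MvPolynomial.aeval (fun i => (fun j => MZ.H (w i) j : ℕ → ℂ)) P j := rfl
    refine Eq.trans ?_ (h2.symm.trans h3)
    have e : (fun i => H (w i) j) =
        fun i => (Pi.evalAlgHom baseField (fun _ : ℕ => ℂ) j) (fun j => MZ.H (w i) j) := funext fun i => H_eq (w i) j
    rw [evalAt, e]
  rw [h1]
  have h2 : MvPolynomial.aeval (fun i => (fun j => MZ.H (w i) j : ℕ → ℂ)) P ∈
      Algebra.adjoin baseField (range fun i => (fun j => MZ.H (w i) j : ℕ → ℂ)) := by
    rw [Algebra.adjoin_range_eq_range_aeval]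
    exact ⟨P, rfl⟩
  refine Algebra.adjoin_mono ?_ h2
  rintro _ ⟨i, rfl⟩
  exact ⟨w i, word_ad (hw i), rfl⟩

theorem H_zero (i : Fin m) : H (w i) 0 = 0 := by
  have h := (hw i).1
  rcases hwi : w i with _ | ⟨k, v⟩
  · rw [hwi] at h
    exact absurd h (by simp)
  · rw [H, Finset.range_zero, Finset.sum_empty]

theorem at_zero : evalAt P (fun i => H (w i) 0) = evalAt P 0 := by
  congr 1
  funext i
  exact H_zero hw i

theorem M_zero : M P w 0 = evalAt P 0 := by
  rw [M, tsum_eq_single 0]
  · rw [at_zero hw]
    simp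
  · intro j hj
    rw [zero_pow hj, zero_div, zero_mul]

theorem tendsto_H (i : Fin m) : Tendsto (fun j => H (w i) j) atTop (𝓝 (zeta (w i))) := by
  have h := word_ad (hw i)
  rcases hwi : w i with _ | ⟨k, v⟩
  · rw [hwi] at h
    exact absurd h id
  · rw [hwi] at h
    have h1 := (MZ.summ_Hn h).hasSum.tendsto_sum_nat
    have e : (fun j => H (k :: v) j) = fun j => ∑ i ∈ Finset.range j, MZ.H v i / ((i : ℂ) + 1) ^ k := by
      funext j
      rw [H_eq, MZ.H]
    rw [e, zeta_eq]
    exact h1

theorem tendsto_M : Tendsto (fun x : ℝ => M P w x) atTop (𝓝 (evalAt P (fun i => zeta (w i)))) := by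
  obtain ⟨a, W, c, hW, hf⟩ := MZ.expl (mem_adj hw P)
  have h1 : Tendsto (fun j => evalAt P (fun i => H (w i) j)) atTop (𝓝 (evalAt P (fun i => zeta (w i)))) := by
    have h2 : Continuous (fun z : Fin m → ℂ => evalAt P z) := by
      have h3 : (fun z : Fin m → ℂ => evalAt P z) =
          fun z => MvPolynomial.eval z (MvPolynomial.map (algebraMap baseField ℂ) P) := by
        funext z
        rw [evalAt, MvPolynomial.aeval_def, MvPolynomial.eval₂_eq_eval_map]
      rw [h3]
      exact MvPolynomial.continuous_eval _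
    have h4 : Tendsto (fun j => (fun i => H (w i) j : Fin m → ℂ)) atTop (𝓝 (fun i => zeta (w i))) :=
      tendsto_pi_nhds.2 fun i => tendsto_H hw i
    exact (h2.tendsto _).comp h4
  have h5 : Tendsto (fun j => algebraMap KK ℂ a + ∑ v ∈ W, algebraMap KK ℂ (c v) * MZ.H v j) atTop
      (𝓝 (algebraMap KK ℂ a + ∑ v ∈ W, algebraMap KK ℂ (c v) * MZ.zt v)) := by
    refine tendsto_const_nhds.add (tendsto_finsetSum _ fun v hv => Tendsto.const_mul _ ?_)
    have h := hW v hv
    rcases v with _ | ⟨k, v⟩
    · exact absurd h id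
    · exact (MZ.summ_Hn h).hasSum.tendsto_sum_nat
  have h6 : evalAt P (fun i => zeta (w i)) = algebraMap KK ℂ a + ∑ v ∈ W, algebraMap KK ℂ (c v) * MZ.zt v := by
    refine tendsto_nhds_unique h1 (h5.congr fun j => ?_)
    exact (hf j).symm
  rw [h6]
  have h7 : Tendsto (fun x : ℝ => algebraMap KK ℂ a + ∑ v ∈ W, algebraMap KK ℂ (c v) * MZ.S v x) atTop
      (𝓝 (algebraMap KK ℂ a + ∑ v ∈ W, algebraMap KK ℂ (c v) * MZ.zt v)) :=
    tendsto_const_nhds.add (tendsto_finsetSum _ fun v hv => Tendsto.const_mul _ (MZ.Sn_tendsto (hW v hv)))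
  refine h7.congr fun x => ?_
  exact (MZ.Pm_expl (f := fun j => evalAt P (fun i => H (w i) j)) (c := fun v => algebraMap KK ℂ (c v)) hW hf (x : ℂ)).symm

theorem two {X : Set ℂ} (hX : Points X) (hP : ∃ j, evalAt P (fun i => H (w i) j) ≠ evalAt P 0) {x y : ℂ} (hx : x ∈ X)
    (hy : y ∈ X ∨ y = 0) (hxy : x ≠ y) : ¬ IsAlgebraic baseField (M P w x - M P w y) := by
  intro h
  rw [baseField_eq] at h
  refine MZ.pol_two hX (mem_adj hw P) ?_ hx hy hxy h
  obtain ⟨j, hj⟩ := hP
  refine ⟨j, ?_⟩
  show evalAt P (fun i => H (w i) j) ≠ evalAt P (fun i => H (w i) 0)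
  rw [at_zero hw]
  exact hj

end

/-- **Polynomials in multiple zeta values: at most one exception** -/
theorem result (X : Set ℂ) (hX : Points X) (m : ℕ) (w : Fin m → List ℕ) (hw : ∀ i, Word (w i))
    (P : MvPolynomial (Fin m) baseField) (hP : ∃ j, evalAt P (fun i => H (w i) j) ≠ evalAt P 0) :
    -- the limit cases `x → ∞` and `x = 0`
    (Tendsto (fun x : ℝ => M P w x) atTop (𝓝 (evalAt P (fun i => zeta (w i)))) ∧ M P w 0 = evalAt P 0) ∧
    -- (1)
    (∀ x ∈ X, Transcendental baseField (M P w x)) ∧
    -- (2)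
    ∀ z : ℂ, {x : ℂ | (x ∈ X ∨ x = 0) ∧ IsAlgebraic baseField (z - M P w x)}.Subsingleton := by
  refine ⟨⟨tendsto_M hw P, M_zero hw P⟩, fun x hx halg => ?_, fun z x hx y hy => ?_⟩
  · have hx0 : x ≠ 0 := by
      intro h0
      exact (hX x hx).2 x hx (by rw [h0, add_zero])
    refine two hw P hX hP hx (Or.inr rfl) hx0 ?_
    have h1 : IsAlgebraic baseField (M P w 0) := by
      rw [M_zero hw]
      have h2 : evalAt P 0 = algebraMap baseField ℂ (MvPolynomial.constantCoeff P) := by
        rw [evalAt, MvPolynomial.aeval_zero]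
      rw [h2]
      exact isAlgebraic_algebraMap _
    exact IsAlgebraic.sub halg h1
  · by_contra hxy
    have h1 : IsAlgebraic baseField (M P w x - M P w y) := by
      have h2 := IsAlgebraic.sub hy.2 hx.2
      have h3 : z - M P w y - (z - M P w x) = M P w x - M P w y := by ring
      rwa [h3] at h2
    rcases hx.1 with hx1 | hx1
    · exact two hw P hX hP hx1 hy.1 hxy h1
    · have hy1 : y ∈ X := hy.1.resolve_right fun h => hxy (hx1.trans h.symm)
      refine two hw P hX hP hy1 (Or.inr hx1) (fun h => hxy h.symm) ?_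
      have h2 := IsAlgebraic.neg h1
      rwa [neg_sub] at h2

end Pool.Agent.Results.MP_f3dc73_nt.PolynomialsOneException
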