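import Mathlib
import Pool.Agent.N202.MT.Base

/-!
# MP_f3dc73_nt: the structure of the algebra of multiple zeta values and motives of small rank

**Setting** (`Pool/Agent/N202/MT/Base.lean`). The category `MT(ℤ) ⊗ K` is the category of
finite-dimensional graded `K`-vector spaces `V = ω_dR(M)` with operators `σ_n`, `n = 3, 5, 7, …`, of
degree `n` (`Motive`); the ring `P` of motivic periods has the basis `t ^ e f_u` (`e ∈ ℤ`, `u` a word
in the letters `3, 5, 7, …`), `[M, w, s] = ∑ s(pr_{-e} σ_u w) t ^ e f_u`, and
`per(t ^ e f_u) = (2πi) ^ e a_u` with real numbers `a_u`, `a_∅ = 1`; one may normalise so that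
`a_n = ζ(n)`. Nothing is assumed on the other `a_u`. The space `Z_k` of multiple zeta values of
weight `k` is spanned by the `D_k` numbers `π ^ (k - |u|) a_u` with `|u| ≤ k` and `k - |u|` even
(Deligne-Goncharov, Terasoma, Brown), and the structure conjecture says that these are linearly
independent (`WeightIndependent`).

`GrBlockInjective K a N j`: for all `M` whose weights lie in an interval of length `N`, all graded
subspaces `W` of `ω_dR(M)` and all subspaces `S` of `ω_B(M)^∨` with `dim W + dim S ≥ dim M - j`:
if all periods `per [M, w, s]`, `w ∈ W`, `s ∈ S`, vanish, then the motivic periods vanish. (Then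
the zero block `W × S` has defect at most `j`.)

**Theorem.**
(1) This holds if and only if `per` is injective on the homogeneous motivic periods `[M, w, s]` of
the motives of rank at most `j + 2`.
(2) For `K = ℚ` it holds for all `j` if and only if the structure conjecture holds in all weights
`k ≤ N`, that is `dim Z_k = D_k`.
(3) For `K = ℚ` and `j = 0` it holds.
(4) For `K = ℚ` and `j = 1` it holds if and only if `ζ(l) / (π ^ (l - m) ζ(m))` is irrational for all
odd `3 ≤ m < l ≤ N` and `a_{n,m} / π ^ (n + m)` is irrational for all odd `n, m ≥ 3` with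
`n + m ≤ N`.

So the conjunction of the irrationality statements in (4) is the first step of the structure
conjecture beyond what is known, in the filtration of the conjecture by the defect or, what is the
same by (1), by the rank of the motives. For the numbers `a_{n,m}` of the actual period map one has
`a_{n,m} + a_{m,n} = ζ(n) ζ(m)`; in particular `a_{n,n} = ζ(n) ^ 2 / 2`.

**Proof.** (1) is the graded version of `Pool.Agent.Results.MP_e54452_nt.ZeroBlocks`: a vanishing
block is reduced to a block spanned by one vector on each side in a subquotient; the defect does not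
increase, so the rank of the subquotient is at most `j + 2`. (2) For the truncated free module the
periods of the generator are all combinations of the numbers in question. (3), (4): for a motive of
rank three and a homogeneous vector at most the empty word, two words of length one and one word of
length two contribute; take real and imaginary parts.
-/

set_option autoImplicit false

open Complex Module Pool.Agent.N202.MTZ

namespace Pool.Agent.Results.MP_f3dc73_nt.RankAndDefect

/-- `per` is injective on the homogeneous motivic periods `[M, w, s]` (`w` homogeneous) of the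
motives of rank at most `r` whose weights lie in an interval of length `N`. -/
def HomRankInjective (K : Type) [Field K] [Algebra K ℂ] (a : List Letter → ℂ) (N r : ℕ) : Prop :=
  ∀ (V : Type) [AddCommGroup V] [Module K V] [FiniteDimensional K V] (M : Motive K V),
    M.Width N → finrank K V ≤ r → ∀ (k : ℤ) (w : V) (s : Dual K V), M.pr k w = w →
      per K a (M.mper w s) = 0 → M.mper w s = 0

/-- `per` is injective on the graded zero blocks of defect at most `j`, for motives `M` of any rank
whose weights lie in an interval of length `N`: if `W ⊆ ω_dR(M)` is a graded subspace and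
`S ⊆ ω_B(M)^∨` a subspace with `dim W + dim S ≥ dim M - j` and `per [M, w, s] = 0` for all `w ∈ W`
and `s ∈ S`, then `[M, w, s] = 0` for all `w ∈ W` and `s ∈ S`. -/
def GrBlockInjective (K : Type) [Field K] [Algebra K ℂ] (a : List Letter → ℂ) (N j : ℕ) : Prop :=
  ∀ (V : Type) [AddCommGroup V] [Module K V] [FiniteDimensional K V] (M : Motive K V),
    M.Width N → ∀ (W : Submodule K V) (S : Submodule K (Dual K V)),
      (∀ k, ∀ w ∈ W, M.pr k w ∈ W) →
      finrank K V ≤ finrank K W + finrank K S + j →
      (∀ w ∈ W, ∀ s ∈ S, per K a (M.mper w s) = 0) → ∀ w ∈ W, ∀ s ∈ S, M.mper w s = 0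

/-- The numbers `π ^ (k - |u|) a_u` (`u` a word of size `|u| ≤ k` with `k - |u|` even), which span
the space `Z_k` of multiple zeta values of weight `k`, are linearly independent over `ℚ`; that is,
`dim Z_k = D_k`. -/
def WeightIndependent (a : List Letter → ℝ) (k : ℕ) : Prop :=
  LinearIndepOn ℚ (fun u : List Letter => Real.pi ^ (k - size u) * a u)
    {u | size u ≤ k ∧ Even (k - size u)}

variable {K V : Type} [Field K] [AddCommGroup V] [Module K V] [Algebra K ℂ]

theorem blocks {N j : ℕ} (a : List Letter → ℂ) (h0 : a [] = 1)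
    (hr : HomRankInjective K a N (j + 2)) : GrBlockInjective K a N j := by
  classical
  intro V _ _ _ M hM W S hWgr hdim hper
  obtain ⟨T, hTinj, hTW, hTX⟩ := exists_operator M hM a h0 W S hper
  have C : ∀ g : ℕ, ∀ k : ℤ, ∀ w ∈ W, w ∈ M.F k → ∀ s ∈ S, (∀ v ∈ M.F (k + g), s v = 0) →
      M.mper w s = 0 := by
    intro g
    induction g with
    | zero =>
      intro k w _ hwk s _ hsk
      funext p
      show s (M.pr (-p.1) (M.word p.2 w)) = 0
      rw [Nat.cast_zero, add_zero] at hsk
      have h1 : M.pr (-p.1) (M.word p.2 w) ∈ M.F k := by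
        by_cases h : -p.1 < k
        · rw [M.F_anti (by omega : k ≤ k + size p.2) (M.word_F hwk p.2) _ h]
          exact Submodule.zero_mem _
        · exact M.F_anti (not_lt.1 h) (M.pr_F _ _)
      exact hsk _ h1
    | succ g ih =>
      intro k w hw hwk s hs hsk
      rcases Nat.eq_zero_or_pos g with hg | hg
      · -- a single degree
        subst hg
        have hsk' : ∀ v ∈ M.F (k + 1), s v = 0 := by simpa using hsk
        have h1 : ∀ p : ℤ × List Letter, p ≠ (-k, []) → M.mper w s p = 0 := by
          intro p hp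
          show s (M.pr (-p.1) (M.word p.2 w)) = 0
          by_cases hu : p.2 = []
          · have hk : -p.1 ≠ k := by
              intro h
              apply hp
              rw [← h, ← hu, neg_neg]
            rw [hu]
            show s (M.pr (-p.1) w) = 0
            rcases lt_or_gt_of_ne hk with h | h
            · rw [hwk _ h, map_zero]
            · exact hsk' _ (M.F_anti (by omega) (M.pr_F _ _))
          · have h2 : M.word p.2 w ∈ M.F (k + 1) := by
              have := size_pos hu
              exact M.F_anti (by omega) (M.word_F hwk p.2)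
            by_cases h : -p.1 < k + 1
            · rw [h2 _ h, map_zero]
            · exact hsk' _ (M.F_anti (not_lt.1 h) (M.pr_F _ _))
        have h2 := hper w hw s hs
        rw [per, finsum_eq_single _ (-k, []) (fun p hp => by rw [h1 p hp, map_zero, zero_mul]),
          h0, mul_one] at h2
        have h3 : M.mper w s (-k, []) = 0 := by
          have h4 := (mul_eq_zero.1 h2).resolve_right (zpow_ne_zero _ two_pi_I_ne)
          rwa [map_eq_zero] at h4
        funext p
        by_cases hp : p = (-k, [])
        · rw [hp]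
          exact h3
        · exact h1 p hp
      · -- the general step
        suffices hhom : M.mper (M.pr k w) s = 0 by
          have hrest : M.mper (w - M.pr k w) s = 0 := by
            refine ih (k + 1) _ (W.sub_mem hw (hWgr k w hw)) (M.sub_pr_F hwk) s hs
              fun v hv => hsk v ?_
            have : k + 1 + (g : ℤ) = k + ((g + 1 : ℕ) : ℤ) := by
              push_cast
              ring
            rwa [this] at hv
          rw [← sub_add_cancel w (M.pr k w), M.mper_add, hrest, hhom, add_zero]
        have hwW' : M.pr k w ∈ W := hWgr k w hw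
        have hwk' : M.pr k w ∈ M.F k := M.pr_F k w
        have hwpr : M.pr k (M.pr k w) = M.pr k w := M.pr_self k w
        generalize M.pr k w = w at hwW' hwk' hwpr ⊢
        clear hw hwk
        have hw := hwW'
        have hwk := hwk'
        set l : ℤ := k + g with hl
        have hlk : k + 1 ≤ l := by omega
        have hsl : ∀ v ∈ M.F (l + 1), s v = 0 := by
          intro v hv
          apply hsk
          have : k + ((g + 1 : ℕ) : ℤ) = l + 1 := by
            rw [hl]
            push_cast
            ring
          rwa [this]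
        -- the subobject `R`
        let R : Submodule K V :=
          { carrier := {v | v ∈ M.F (k + 1) ⊔ Submodule.span K {w} ∧
              ∀ s' ∈ S, (∀ v ∈ M.F l, s' v = 0) → M.mper v s' = 0}
            add_mem' := by
              rintro x y ⟨hx, hx'⟩ ⟨hy, hy'⟩
              refine ⟨Submodule.add_mem _ hx hy, fun s' hs' hs'' => ?_⟩
              rw [M.mper_add, hx' s' hs' hs'', hy' s' hs' hs'', add_zero]
            zero_mem' := by
              refine ⟨Submodule.zero_mem _, fun s' _ _ => ?_⟩
              funext p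
              simp [Motive.mper]
            smul_mem' := by
              rintro c x ⟨hx, hx'⟩
              refine ⟨Submodule.smul_mem _ _ hx, fun s' hs' hs'' => ?_⟩
              rw [M.mper_smul, hx' s' hs' hs'', smul_zero] }
        have hXst : M.Stable (M.F (k + 1) ⊔ Submodule.span K {w}) := by
          constructor
          · intro i v hv
            obtain ⟨x, hx, y, hy, rfl⟩ := Submodule.mem_sup.1 hv
            obtain ⟨c, rfl⟩ := Submodule.mem_span_singleton.1 hy
            rw [map_add, map_smul]
            have hFpr : ∀ (m : ℤ) (z : V), z ∈ M.F m → M.pr i z ∈ M.F m := by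
              intro m z hz
              by_cases h : i < m
              · rw [hz i h]
                exact Submodule.zero_mem _
              · exact M.F_anti (not_lt.1 h) (M.pr_F _ _)
            refine Submodule.add_mem _ (Submodule.mem_sup_left (hFpr _ _ hx))
              (Submodule.smul_mem _ _ ?_)
            rcases lt_trichotomy i k with h | h | h
            · rw [hwk i h]
              exact Submodule.zero_mem _
            · rw [h, ← sub_sub_self w (M.pr k w)]
              exact Submodule.sub_mem _
                (Submodule.mem_sup_right (Submodule.mem_span_singleton_self w))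
                (Submodule.mem_sup_left (M.sub_pr_F hwk))
            · exact Submodule.mem_sup_left (M.F_anti (by omega) (M.pr_F _ _))
          · intro n v hv
            have hv' : v ∈ M.F k := by
              obtain ⟨x, hx, y, hy, rfl⟩ := Submodule.mem_sup.1 hv
              obtain ⟨c, rfl⟩ := Submodule.mem_span_singleton.1 hy
              exact Submodule.add_mem _ (M.F_anti (by omega) hx) (Submodule.smul_mem _ _ hwk)
            have h1 : M.word [n] v ∈ M.F (k + size [n]) := M.word_F hv' [n]
            have h2 := size_pos (u := [n]) (by simp)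
            exact Submodule.mem_sup_left (M.F_anti (by omega) h1)
        have hRst : M.Stable R :=
          ⟨fun i v hv => ⟨hXst.pr i v hv.1, fun s' hs' hs'' =>
            M.mper_pr v s' i (hv.2 s' hs' hs'')⟩,
          fun n v hv => ⟨hXst.σ n v hv.1, fun s' hs' hs'' =>
            M.mper_σ v s' n (hv.2 s' hs' hs'')⟩⟩
        -- the subobject `Q`
        let Q : Submodule K V :=
          { carrier := {v | v ∈ R ∧ M.mper v s = 0}
            add_mem' := by
              rintro x y ⟨hx, hx'⟩ ⟨hy, hy'⟩
              exact ⟨Submodule.add_mem _ hx hy, by rw [M.mper_add, hx', hy', add_zero]⟩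
            zero_mem' := by
              refine ⟨Submodule.zero_mem _, ?_⟩
              funext p
              simp [Motive.mper]
            smul_mem' := by
              rintro c x ⟨hx, hx'⟩
              exact ⟨Submodule.smul_mem _ _ hx, by rw [M.mper_smul, hx', smul_zero]⟩ }
        have hQst : M.Stable Q :=
          ⟨fun i v hv => ⟨hRst.pr i v hv.1, M.mper_pr v s i hv.2⟩,
          fun n v hv => ⟨hRst.σ n v hv.1, M.mper_σ v s n hv.2⟩⟩
        have hQR : Q ≤ R := fun v hv => hv.1
        have hwR : w ∈ R :=
          ⟨Submodule.mem_sup_right (Submodule.mem_span_singleton_self w),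
            fun s' hs' hs'' => ih k w hw hwk s' hs' hs''⟩
        have hFQ : ∀ v ∈ M.F l, s v = 0 → v ∈ Q := by
          intro v hv hsv
          refine ⟨⟨Submodule.mem_sup_left (M.F_anti hlk hv), fun s' _ hs'' => ?_⟩, ?_⟩
          · funext p
            show s' (M.pr (-p.1) (M.word p.2 v)) = 0
            have h1 : M.word p.2 v ∈ M.F l := M.F_anti (by omega) (M.word_F hv p.2)
            by_cases h : -p.1 < l
            · rw [h1 _ h, map_zero]
            · exact hs'' _ (M.F_anti (not_lt.1 h) (M.pr_F _ _))
          · funext p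
            show s (M.pr (-p.1) (M.word p.2 v)) = 0
            by_cases hu : p.2 = []
            · rw [hu]
              show s (M.pr (-p.1) v) = 0
              rcases lt_trichotomy (-p.1) l with h | h | h
              · rw [hv _ h, map_zero]
              · have h2 := hsl _ (M.sub_pr_F hv)
                rw [map_sub, hsv, zero_sub, neg_eq_zero] at h2
                rw [h]
                exact h2
              · exact hsl _ (M.F_anti (by omega) (M.pr_F _ _))
            · have h1 : M.word p.2 v ∈ M.F (l + 1) := by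
                have := size_pos hu
                exact M.F_anti (by omega) (M.word_F hv p.2)
              by_cases h : -p.1 < l + 1
              · rw [h1 _ h, map_zero]
              · exact hsl _ (M.F_anti (not_lt.1 h) (M.pr_F _ _))
        -- the blocks of `R / Q`
        have hWRQ : finrank K (W ⊓ R : Submodule K V) ≤
            finrank K (W ⊓ Q : Submodule K V) + 1 := by
          refine finrank_le_add_one w ?_
          rintro v ⟨hvW, hvR⟩
          obtain ⟨x, hx, y, hy, hxy⟩ := Submodule.mem_sup.1 hvR.1
          obtain ⟨c, rfl⟩ := Submodule.mem_span_singleton.1 hy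
          have hx' : v - c • w = x := by
            rw [← hxy]
            abel
          have hxW : x ∈ W := by
            rw [← hx']
            exact W.sub_mem hvW (W.smul_mem c hw)
          have hxR : x ∈ R := by
            rw [← hx']
            exact R.sub_mem hvR (R.smul_mem c hwR)
          refine ⟨c, ?_⟩
          rw [hx']
          refine ⟨hxW, hxR, ih (k + 1) x hxW hx s hs fun v hv => hsl v ?_⟩
          have : k + 1 + (g : ℤ) = l + 1 := by
            rw [hl]
            ring
          rwa [this] at hv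
        have hSRQ : finrank K (S ⊓ Q.dualAnnihilator : Submodule K (Dual K V)) ≤
            finrank K (S ⊓ R.dualAnnihilator : Submodule K (Dual K V)) + 1 := by
          refine finrank_le_add_one s ?_
          rintro s' ⟨hs'S, hs'Q⟩
          rw [SetLike.mem_coe, Submodule.mem_dualAnnihilator] at hs'Q
          obtain ⟨c, hc⟩ : ∃ c : K, ∀ v ∈ M.F l, (s' - c • s) v = 0 := by
            by_cases hall : ∀ v ∈ M.F l, s v = 0
            · refine ⟨0, fun v hv => ?_⟩
              rw [zero_smul, sub_zero]
              exact hs'Q v (hFQ v hv (hall v hv))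
            · push Not at hall
              obtain ⟨v0, hv0, hsv0⟩ := hall
              refine ⟨s' v0 / s v0, fun v hv => ?_⟩
              have h1 : v - (s v / s v0) • v0 ∈ Q := by
                refine hFQ _ (Submodule.sub_mem _ hv (Submodule.smul_mem _ _ hv0)) ?_
                rw [map_sub, map_smul, smul_eq_mul, div_mul_cancel₀ _ hsv0, sub_self]
              have h2 := hs'Q _ h1
              rw [map_sub, map_smul, smul_eq_mul] at h2
              rw [LinearMap.sub_apply, LinearMap.smul_apply, smul_eq_mul]
              field_simp at h2 ⊢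
              linear_combination h2
          refine ⟨c, S.sub_mem hs'S (S.smul_mem c hs), ?_⟩
          rw [SetLike.mem_coe, Submodule.mem_dualAnnihilator]
          intro v hv
          exact M.mper_eval (hv.2 _ (S.sub_mem hs'S (S.smul_mem c hs)) hc)
        have hcount := count T hTinj (hTX Q hQst) (hTX R hRst) W S hTW
        have hsub := finrank_subq hQR
        have hsQ : ∀ v ∈ Q, s v = 0 := fun v hv => M.mper_eval hv.2
        have hhomw : (subq M hQst hRst).pr k (Submodule.Quotient.mk (⟨w, hwR⟩ : R)) =
            Submodule.Quotient.mk (⟨w, hwR⟩ : R) := by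
          show ind (M.pr k) (hRst.pr k) (hQst.pr k) _ = _
          rw [ind_mk]
          congr 1
          exact Subtype.ext hwpr
        have hfin := hr _ (subq M hQst hRst) (subq_width M hQst hRst hM) (by omega) k
          (Submodule.Quotient.mk (⟨w, hwR⟩ : R))
          ((Q.comap R.subtype).liftQ (s.comp R.subtype) (fun _ hv => hsQ _ hv)) hhomw
        rw [subq_mper M hQst hRst ⟨w, hwR⟩ s hsQ] at hfin
        exact hfin (hper w hw s hs)
  -- conclusion
  intro w hw s hs
  obtain ⟨D, hD⟩ := M.sum_pr
  obtain ⟨lo, hlo⟩ := D.bddBelow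
  obtain ⟨hi, hhi⟩ := D.bddAbove
  refine C (hi - lo + 1).toNat lo w hw (fun i hi' => ?_) s hs fun v hv => ?_
  · refine pr_out hD (fun h => ?_) w
    have := hlo h
    omega
  · have h1 : v = 0 := by
      rw [← hD v]
      refine Finset.sum_eq_zero fun i hi' => hv i ?_
      have := hhi hi'
      omega
    rw [h1, map_zero]

theorem rank_of_blocks {N j : ℕ} (a : List Letter → ℂ) (hb : GrBlockInjective K a N j) :
    HomRankInjective K a N (j + 2) := by
  intro V _ _ _ M hM hrk k w s hk hws
  by_cases hw : w = 0
  · funext p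
    simp [Motive.mper, hw]
  by_cases hs : s = 0
  · funext p
    simp [Motive.mper, hs]
  refine hb V M hM (Submodule.span K {w}) (Submodule.span K {s}) ?_ ?_ ?_ w
    (Submodule.mem_span_singleton_self w) s (Submodule.mem_span_singleton_self s)
  · intro i w' hw'
    obtain ⟨c, rfl⟩ := Submodule.mem_span_singleton.1 hw'
    rw [← hk, map_smul, M.pr_pr]
    split_ifs with h
    · rw [hk]
      exact Submodule.smul_mem _ _ (Submodule.mem_span_singleton_self w)
    · rw [smul_zero]
      exact Submodule.zero_mem _
  · rw [finrank_span_singleton hw, finrank_span_singleton hs]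
    omega
  · intro w' hw' s' hs'
    obtain ⟨c, rfl⟩ := Submodule.mem_span_singleton.1 hw'
    obtain ⟨c', rfl⟩ := Submodule.mem_span_singleton.1 hs'
    rw [M.mper_smul, M.mper_smul_right]
    have h1 : per K a (c • c' • M.mper w s) = algebraMap K ℂ (c * c') * per K a (M.mper w s) := by
      have h2 := smul_finsum (algebraMap K ℂ (c * c')) (fun p : ℤ × List Letter =>
        algebraMap K ℂ (M.mper w s p) * ((2 * Real.pi * I) ^ p.1 * a p.2))
      rw [smul_eq_mul] at h2
      rw [per, per, h2]
      refine finsum_congr fun p => ?_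
      simp only [Pi.smul_apply, smul_eq_mul, map_mul]
      ring
    rw [h1, hws, mul_zero]

/-! ### homogeneous periods -/

omit [Algebra K ℂ] in
theorem word_hom (M : Motive K V) {k : ℤ} {w : V} (hk : M.pr k w = w) (u : List Letter) :
    M.pr (k + size u) (M.word u w) = M.word u w := by
  rw [M.pr_word, add_sub_cancel_right, hk]

omit [Algebra K ℂ] in
theorem mper_hom (M : Motive K V) {k : ℤ} {w : V} (hk : M.pr k w = w) (s : Dual K V)
    (p : ℤ × List Letter) :
    M.mper w s p = if -p.1 = k + size p.2 then s (M.word p.2 w) else 0 := by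
  show s (M.pr (-p.1) (M.word p.2 w)) = _
  split_ifs with h
  · rw [h, word_hom M hk]
  · rw [← word_hom M hk p.2, M.pr_ne h, map_zero]

theorem hom_period {V : Type} [AddCommGroup V] [Module ℚ V] {N : ℕ} (M : Motive ℚ V)
    (hN : M.Width N) (a : List Letter → ℂ) {k : ℤ} {w : V} (hk : M.pr k w = w) (s : Dual ℚ V) :
    per ℚ a (M.mper w s) =
      ∑ u ∈ B N, ((s (M.word u w) : ℚ) : ℂ) * ((2 * Real.pi * I) ^ (-(k + size u)) * a u) := by
  classical
  have h1 : per ℚ a (M.mper w s) = ∑ p ∈ (B N).image (fun u => (-(k + (size u : ℤ)), u)),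
      algebraMap ℚ ℂ (M.mper w s p) * ((2 * Real.pi * I) ^ p.1 * a p.2) := by
    refine finsum_eq_sum_of_support_subset _ fun p hp => ?_
    by_contra hne
    apply hp
    show algebraMap ℚ ℂ (M.mper w s p) * _ = 0
    rw [mper_hom M hk]
    split_ifs with h
    · have hu : p.2 ∉ B N := by
        intro hu
        apply hne
        rw [Finset.mem_coe, Finset.mem_image]
        exact ⟨p.2, hu, Prod.ext (by rw [← h, neg_neg]) rfl⟩
      rw [← word_hom M hk, pr_word_large M hN _ hu, map_zero, map_zero, zero_mul]
    · rw [map_zero, zero_mul]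
  rw [h1, Finset.sum_image (fun x _ y _ h => congrArg Prod.snd h)]
  refine Finset.sum_congr rfl fun u _ => ?_
  rw [mper_hom M hk, if_pos (by simp)]
  rfl

/-- `(2i) ^ n`, up to a factor `i` -/
def κ (n : ℕ) : ℚ := if Even n then (-4) ^ (n / 2) else 2 * (-4) ^ (n / 2)

theorem κ_ne (n : ℕ) : κ n ≠ 0 := by
  unfold κ
  split_ifs
  · exact pow_ne_zero _ (by norm_num)
  · exact mul_ne_zero (by norm_num) (pow_ne_zero _ (by norm_num))

theorem sq_eq : (2 * Real.pi * I : ℂ) ^ 2 = ((-4 * Real.pi ^ 2 : ℝ) : ℂ) := by
  rw [mul_pow, I_sq]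
  push_cast
  ring

theorem pow_even {n : ℕ} (h : Even n) :
    (2 * Real.pi * I : ℂ) ^ n = ((κ n * Real.pi ^ n : ℝ) : ℂ) := by
  have hκ : κ n = (-4) ^ (n / 2) := by
    unfold κ
    rw [if_pos h]
  obtain ⟨m, rfl⟩ := h
  rw [hκ]
  have h2 : (m + m) / 2 = m := by omega
  rw [h2, ← two_mul, pow_mul, sq_eq]
  push_cast
  rw [mul_pow, ← pow_mul]

theorem pow_odd {n : ℕ} (h : ¬ Even n) :
    (2 * Real.pi * I : ℂ) ^ n = ((κ n * Real.pi ^ n : ℝ) : ℂ) * I := by
  have hκ : κ n = 2 * (-4) ^ (n / 2) := by
    unfold κ
    rw [if_neg h]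
  rw [Nat.not_even_iff_odd] at h
  obtain ⟨m, rfl⟩ := h
  rw [hκ]
  have h2 : (2 * m + 1) / 2 = m := by omega
  rw [h2, pow_succ, pow_mul, sq_eq]
  push_cast
  rw [mul_pow, ← pow_mul]
  ring

theorem re_im {x y : ℝ} (h : (x : ℂ) + (y : ℂ) * I = 0) : x = 0 ∧ y = 0 := by
  have h1 := congrArg Complex.re h
  have h2 := congrArg Complex.im h
  simp only [Complex.add_re, Complex.mul_re, Complex.ofReal_re, Complex.ofReal_im, Complex.I_re,
    Complex.I_im, mul_zero, mul_one, sub_zero, add_zero, Complex.zero_re] at h1
  simp only [Complex.add_im, Complex.mul_im, Complex.ofReal_re, Complex.ofReal_im, Complex.I_re,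
    Complex.I_im, mul_zero, mul_one, add_zero, zero_add, Complex.zero_im] at h2
  exact ⟨h1, h2⟩

/-- the real and the imaginary part of a vanishing period -/
theorem parity {V : Type} [AddCommGroup V] [Module ℚ V] {N N' : ℕ} (hNN' : N ≤ N')
    (M : Motive ℚ V) (hN : M.Width N) (a : List Letter → ℝ) {k : ℤ} {w : V}
    (hk : M.pr k w = w) (s : Dual ℚ V)
    (hper : per ℚ (fun u => (a u : ℂ)) (M.mper w s) = 0) :
    ∑ u ∈ (B N).filter (fun u => Even (N' - size u)), ((s (M.word u w) : ℚ) : ℝ) *
      (κ (N' - size u) * (Real.pi ^ (N' - size u) * a u)) = 0 ∧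
    ∑ u ∈ (B N).filter (fun u => ¬ Even (N' - size u)), ((s (M.word u w) : ℚ) : ℝ) *
      (κ (N' - size u) * (Real.pi ^ (N' - size u) * a u)) = 0 := by
  classical
  rw [hom_period M hN _ hk] at hper
  have h1 : ∑ u ∈ B N, ((s (M.word u w) : ℚ) : ℂ) *
      ((2 * Real.pi * I) ^ (N' - size u) * a u) = 0 := by
    have h2 := congrArg (fun z => (2 * Real.pi * I : ℂ) ^ (k + N') * z) hper
    simp only [mul_zero, Finset.mul_sum] at h2
    rw [← h2]
    refine Finset.sum_congr rfl fun u hu => ?_
    have hu' := mem_B.1 hu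
    have h3 : (2 * Real.pi * I : ℂ) ^ (N' - size u) =
        (2 * Real.pi * I) ^ (k + N') * (2 * Real.pi * I) ^ (-(k + (size u : ℤ))) := by
      rw [← zpow_natCast, ← zpow_add₀ two_pi_I_ne]
      congr 1
      push_cast [Nat.cast_sub (le_trans hu' hNN')]
      ring
    rw [h3]
    ring
  rw [← Finset.sum_filter_add_sum_filter_not (B N) (fun u => Even (N' - size u))] at h1
  have hE : ∑ u ∈ (B N).filter (fun u => Even (N' - size u)), ((s (M.word u w) : ℚ) : ℂ) *
      ((2 * Real.pi * I) ^ (N' - size u) * a u) =
      ((∑ u ∈ (B N).filter (fun u => Even (N' - size u)), ((s (M.word u w) : ℚ) : ℝ) *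
        (κ (N' - size u) * (Real.pi ^ (N' - size u) * a u)) : ℝ) : ℂ) := by
    rw [Complex.ofReal_sum]
    refine Finset.sum_congr rfl fun u hu => ?_
    rw [pow_even (Finset.mem_filter.1 hu).2]
    push_cast
    ring
  have hO : ∑ u ∈ (B N).filter (fun u => ¬ Even (N' - size u)), ((s (M.word u w) : ℚ) : ℂ) *
      ((2 * Real.pi * I) ^ (N' - size u) * a u) =
      ((∑ u ∈ (B N).filter (fun u => ¬ Even (N' - size u)), ((s (M.word u w) : ℚ) : ℝ) *
        (κ (N' - size u) * (Real.pi ^ (N' - size u) * a u)) : ℝ) : ℂ) * I := by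
    rw [Complex.ofReal_sum, Finset.sum_mul]
    refine Finset.sum_congr rfl fun u hu => ?_
    rw [pow_odd (Finset.mem_filter.1 hu).2]
    push_cast
    ring
  rw [hE, hO] at h1
  exact re_im h1

theorem mper_zero {V : Type} [AddCommGroup V] [Module ℚ V] {N : ℕ} (M : Motive ℚ V)
    (hN : M.Width N) {k : ℤ} {w : V} (hk : M.pr k w = w) (s : Dual ℚ V)
    (h : ∀ u ∈ B N, s (M.word u w) = 0) : M.mper w s = 0 := by
  funext p
  rw [mper_hom M hk]
  split_ifs with h1
  · by_cases hu : p.2 ∈ B N
    · exact h _ hu
    · rw [← word_hom M hk, pr_word_large M hN _ hu, map_zero]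
      rfl
  · rfl

/-! ### all ranks: the structure conjecture in bounded weight -/

theorem set_eq (k : ℕ) [DecidablePred fun u : List Letter => Even (k - size u)] :
    {u : List Letter | size u ≤ k ∧ Even (k - size u)} =
      ((B k).filter (fun u => Even (k - size u)) : Finset (List Letter)) := by
  ext u
  rw [Finset.mem_coe, Finset.mem_filter, mem_B]
  rfl

theorem hom_of_weight (a : List Letter → ℝ) {N : ℕ} (h : ∀ k ≤ N, WeightIndependent a k)
    (r : ℕ) : HomRankInjective ℚ (fun u => (a u : ℂ)) N r := by
  classical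
  intro V _ _ _ M hN _ k w s hk hper
  obtain ⟨hE, hO⟩ := parity le_rfl M hN a hk s hper
  refine mper_zero M hN hk s fun u hu => ?_
  by_cases hev : Even (N - size u)
  · have h1 := h N le_rfl
    rw [WeightIndependent, set_eq, linearIndepOn_finset_iff] at h1
    have h2 := h1 (fun u => s (M.word u w) * κ (N - size u)) (by
      rw [← hE]
      refine Finset.sum_congr rfl fun u _ => ?_
      rw [Rat.smul_def]
      push_cast
      ring) u (Finset.mem_filter.2 ⟨hu, hev⟩)
    exact (mul_eq_zero.1 h2).resolve_right (κ_ne _)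
  · have hN1 : 1 ≤ N := by
      by_contra h0
      apply hev
      have : N = 0 := by omega
      rw [this, Nat.zero_sub]
      exact ⟨0, rfl⟩
    have hfil : (B N).filter (fun u => ¬ Even (N - size u)) =
        (B (N - 1)).filter (fun u => Even (N - 1 - size u)) := by
      ext v
      rw [Finset.mem_filter, Finset.mem_filter, mem_B, mem_B]
      constructor
      · rintro ⟨h1, h2⟩
        rw [Nat.not_even_iff_odd] at h2
        obtain ⟨c, hc⟩ := h2
        exact ⟨by omega, c, by omega⟩
      · rintro ⟨h1, c, hc⟩
        refine ⟨by omega, ?_⟩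
        rw [Nat.not_even_iff_odd]
        exact ⟨c, by omega⟩
    have h1 := h (N - 1) (by omega)
    rw [WeightIndependent, set_eq, linearIndepOn_finset_iff] at h1
    have h2 := h1 (fun u => s (M.word u w) * κ (N - size u)) (by
      have h3 : Real.pi * ∑ u ∈ (B (N - 1)).filter (fun u => Even (N - 1 - size u)),
          (s (M.word u w) * κ (N - size u)) • (Real.pi ^ (N - 1 - size u) * a u) = 0 := by
        rw [← hO, hfil, Finset.mul_sum]
        refine Finset.sum_congr rfl fun u hu => ?_
        have hu' := mem_B.1 (Finset.mem_filter.1 hu).1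
        rw [Rat.smul_def, show N - size u = (N - 1 - size u) + 1 by omega, pow_succ]
        push_cast
        ring
      exact (mul_eq_zero.1 h3).resolve_left Real.pi_ne_zero) u (by
        rw [← hfil]
        exact Finset.mem_filter.2 ⟨hu, hev⟩)
    exact (mul_eq_zero.1 h2).resolve_right (κ_ne _)

theorem weight_of_hom (a : List Letter → ℝ) {N : ℕ}
    (h : ∀ r, HomRankInjective ℚ (fun u => (a u : ℂ)) N r) (k : ℕ) (hkN : k ≤ N) :
    WeightIndependent a k := by
  classical
  rw [WeightIndependent, set_eq, linearIndepOn_finset_iff]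
  intro c hc u hu
  let y : List Letter → ℚ := fun u => if Even (k - size u) then c u * (κ (k - size u))⁻¹ else 0
  let s : Dual ℚ (Idx {0} k → ℚ) :=
    { toFun := fun v => ∑ q : Idx {0} k, y q.1.2 * v q
      map_add' := fun v w => by simp [mul_add, Finset.sum_add_distrib]
      map_smul' := fun c v => by
        simp only [Pi.smul_apply, smul_eq_mul, RingHom.id_apply, Finset.mul_sum]
        exact Finset.sum_congr rfl fun q _ => by ring }
  let w : Idx {0} k → ℚ := fun q => if q.1.2 = [] then 1 else 0
  have hw : (free (K := ℚ) {0} k).pr 0 w = w := by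
    funext q
    show (if q.1.1 + (size q.1.2 : ℤ) = 0 then w q else 0) = w q
    split_ifs with h1
    · rfl
    · by_cases h2 : q.1.2 = []
      · exfalso
        apply h1
        have h3 := (Finset.mem_product.1 q.2).1
        rw [Finset.mem_singleton] at h3
        rw [h3, h2]
        rfl
      · show (0 : ℚ) = if q.1.2 = [] then 1 else 0
        rw [if_neg h2]
  have hwidth : ∀ i, (free (K := ℚ) {0} k).pr i ≠ 0 → 0 ≤ i ∧ i ≤ k := by
    intro i hi
    by_contra hne
    apply hi
    apply LinearMap.ext
    intro v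
    funext q
    show (if q.1.1 + (size q.1.2 : ℤ) = i then v q else 0) = 0
    rw [if_neg]
    intro h1
    apply hne
    have h3 := Finset.mem_product.1 q.2
    have h4 := mem_B.1 h3.2
    have h5 := Finset.mem_singleton.1 h3.1
    rw [h5] at h1
    omega
  have hM : (free (K := ℚ) {0} k).Width k := by
    intro i j hi hj
    have h1 := hwidth i hi
    have h2 := hwidth j hj
    omega
  have hs : ∀ v ∈ B k, s ((free (K := ℚ) {0} k).word v w) = y v := by
    intro v hv
    show ∑ q : Idx {0} k, y q.1.2 * (free (K := ℚ) {0} k).word v w q = y v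
    have hq : ((0 : ℤ), v) ∈ ({0} : Finset ℤ) ×ˢ B k :=
      Finset.mem_product.2 ⟨Finset.mem_singleton_self _, hv⟩
    rw [Finset.sum_eq_single (⟨_, hq⟩ : Idx {0} k)]
    · rw [free_word, if_pos rfl, mul_one]
    · intro q _ hne
      rw [free_word, if_neg, mul_zero]
      intro h1
      apply hne
      apply Subtype.ext
      apply Prod.ext
      · exact Finset.mem_singleton.1 (Finset.mem_product.1 q.2).1
      · exact h1
    · intro h1
      exact absurd (Finset.mem_univ _) h1
  have hper : per ℚ (fun u => (a u : ℂ)) ((free (K := ℚ) {0} k).mper w s) = 0 := by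
    rw [hom_period _ hM _ hw]
    have h1 : ∑ u ∈ B k, ((y u : ℚ) : ℂ) * ((2 * Real.pi * I) ^ (k - size u) * (a u : ℂ)) =
        ((∑ u ∈ (B k).filter (fun u => Even (k - size u)),
          c u • (Real.pi ^ (k - size u) * a u) : ℝ) : ℂ) := by
      rw [Complex.ofReal_sum, Finset.sum_filter]
      refine Finset.sum_congr rfl fun v _ => ?_
      by_cases hev : Even (k - size v)
      · rw [if_pos hev, pow_even hev, Rat.smul_def]
        have hy : y v = c v * (κ (k - size v))⁻¹ := if_pos hev
        have hκ : ((κ (k - size v) : ℚ) : ℂ) ≠ 0 := by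
          exact_mod_cast κ_ne (k - size v)
        rw [hy]
        push_cast
        field_simp
      · have hy : y v = 0 := if_neg hev
        rw [if_neg hev, hy]
        simp
    rw [hc, Complex.ofReal_zero] at h1
    have h2 := congrArg (fun z => (2 * Real.pi * I : ℂ) ^ (-(k : ℤ)) * z) h1
    simp only [mul_zero, Finset.mul_sum] at h2
    rw [← h2]
    refine Finset.sum_congr rfl fun v hv => ?_
    have hv' := mem_B.1 hv
    have h3 : (2 * Real.pi * I : ℂ) ^ (-((0 : ℤ) + (size v : ℤ))) =
        (2 * Real.pi * I) ^ (-(k : ℤ)) * (2 * Real.pi * I) ^ (k - size v) := by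
      rw [← zpow_natCast, ← zpow_add₀ two_pi_I_ne]
      congr 1
      push_cast [Nat.cast_sub hv']
      ring
    rw [hs v hv, h3]
    ring
  have hMN : (free (K := ℚ) {0} k).Width N := by
    intro i j hi hj
    have := hM i j hi hj
    omega
  have h1 := h _ _ _ hMN le_rfl 0 w s hw hper
  have hu' := Finset.mem_filter.1 hu
  have h2 := congrFun h1 (-(size u : ℤ), u)
  rw [mper_hom _ hw, if_pos (by simp), hs u hu'.1] at h2
  have hy : y u = c u * (κ (k - size u))⁻¹ := if_pos hu'.2
  rw [hy] at h2
  exact (mul_eq_zero.1 h2).resolve_right (inv_ne_zero (κ_ne _))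

/-! ### rank three -/

omit [Algebra K ℂ] in
theorem pr_ne_zero (M : Motive K V) {k : ℤ} {w : V} (hk : M.pr k w = w) {u : List Letter}
    (hu : M.word u w ≠ 0) : M.pr (k + size u) ≠ 0 := by
  intro h
  apply hu
  rw [← word_hom M hk u, h]
  rfl

omit [Algebra K ℂ] in
theorem tail_ne_zero (M : Motive K V) {w : V} {n : Letter} {u : List Letter}
    (hu : M.word (n :: u) w ≠ 0) : M.word u w ≠ 0 := by
  intro h
  apply hu
  show M.σ n (M.word u w) = 0
  rw [h, map_zero]

theorem zeta_pos (n : Letter) : 0 < zeta n := by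
  have hs : Summable fun k : ℕ => 1 / ((k : ℝ) + 1) ^ (n : ℕ) := by
    have h1 : Summable fun k : ℕ => 1 / ((k : ℝ)) ^ (n : ℕ) :=
      Real.summable_one_div_nat_pow.2 (by have := n.2.2; omega)
    have h2 := (summable_nat_add_iff 1).2 h1
    refine h2.congr fun k => ?_
    push_cast
    rfl
  exact hs.tsum_pos (fun k => by positivity) 0 (by positivity)

theorem size_one (m : Letter) : size [m] = (m : ℕ) := by
  rw [size_cons, size_nil, add_zero]

theorem size_two (n m : Letter) : size [n, m] = (n : ℕ) + (m : ℕ) := by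
  rw [size_cons, size_one]

/-- a vanishing homogeneous period of a motive of rank at most three -/
theorem rank_three {V : Type} [AddCommGroup V] [Module ℚ V] [FiniteDimensional ℚ V] {N : ℕ}
    (M : Motive ℚ V) (hN : M.Width N) (hrk : finrank ℚ V ≤ 3) (a : List Letter → ℝ)
    (h0 : a [] = 1) (h1 : ∀ n : Letter, a [n] = zeta n) {k : ℤ} {w : V} (hk : M.pr k w = w)
    (s : Dual ℚ V) (hper : per ℚ (fun u => (a u : ℂ)) (M.mper w s) = 0)
    (ha : ∀ m l : Letter, (m : ℕ) < l → (l : ℕ) ≤ N → M.word [m] w ≠ 0 → M.word [l] w ≠ 0 →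
      ∀ q : ℚ, zeta l ≠ q * (Real.pi ^ ((l : ℕ) - m) * zeta m))
    (hb : ∀ n m : Letter, (n : ℕ) + m ≤ N → M.word [n, m] w ≠ 0 →
      ∀ q : ℚ, a [n, m] ≠ q * Real.pi ^ ((n : ℕ) + m)) : M.mper w s = 0 := by
  classical
  by_cases hw0 : w = 0
  · funext p
    simp [Motive.mper, hw0]
  have hk0 : M.pr k ≠ 0 := by
    intro h
    apply hw0
    rw [← hk, h]
    rfl
  obtain ⟨hE, hO⟩ := parity (show N ≤ 2 * N by omega) M hN a hk s hper
  have hne : ∀ u, s (M.word u w) ≠ 0 → M.word u w ≠ 0 := by
    intro u hu h
    apply hu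
    rw [h, map_zero]
  -- four different degrees do not occur
  have hfour : ∀ x y z : ℕ, 0 < x → x < y → y < z → M.pr (k + x) ≠ 0 → M.pr (k + y) ≠ 0 →
      M.pr (k + z) ≠ 0 → False := by
    intro x y z hx hxy hyz h2 h3 h4
    have := card_le_finrank M {k, k + x, k + y, k + z} (by
      intro i hi
      simp only [Finset.mem_insert, Finset.mem_singleton] at hi
      rcases hi with rfl | rfl | rfl | rfl <;> assumption)
    have hc : ({k, k + (x : ℤ), k + y, k + z} : Finset ℤ).card = 4 := by
      rw [Finset.card_insert_of_notMem, Finset.card_insert_of_notMem,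
        Finset.card_insert_of_notMem, Finset.card_singleton]
      · rw [Finset.mem_singleton]
        omega
      · simp only [Finset.mem_insert, Finset.mem_singleton]
        omega
      · simp only [Finset.mem_insert, Finset.mem_singleton]
        omega
    omega
  have hlen : ∀ (n1 n2 n3 : Letter) (t : List Letter), M.word (n1 :: n2 :: n3 :: t) w ≠ 0 →
      False := by
    intro n1 n2 n3 t h
    have e1 := tail_ne_zero M h
    have e2 := tail_ne_zero M e1
    have e3 := tail_ne_zero M e2
    have p1 := pr_ne_zero M hk h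
    have p2 := pr_ne_zero M hk e1
    have p3 := pr_ne_zero M hk e2
    have g1 := n1.2.2
    have g2 := n2.2.2
    have g3 := n3.2.2
    rw [size_cons] at p1 p2 p3
    rw [size_cons] at p1 p2
    rw [size_cons] at p1
    exact hfour _ _ _ (by omega) (by omega) (by omega) p3 p2 p1
  have hsize2 : ∀ u, u ∈ B N → size u ≤ N := fun u hu => mem_B.1 hu
  -- words of length two
  have htwo : ∀ n m : Letter, [n, m] ∈ B N → s (M.word [n, m] w) = 0 := by
    intro n m hmem
    by_contra hc
    have hnm := hsize2 _ hmem
    rw [size_two] at hnm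
    have e0 := hne _ hc
    have e1 := tail_ne_zero M e0
    have p0 := pr_ne_zero M hk e0
    have p1 := pr_ne_zero M hk e1
    rw [size_two] at p0
    rw [size_one] at p1
    have gn := n.2.2
    have gm := m.2.2
    have hdeg : ∀ x : ℕ, 0 < x → M.pr (k + x) ≠ 0 → x = m ∨ x = (n : ℕ) + m := by
      intro x hx hpx
      by_contra hne'
      push Not at hne'
      rcases lt_trichotomy x (m : ℕ) with h | h | h
      · exact hfour x m ((n : ℕ) + m) hx h (by omega) hpx p1 p0
      · exact hne'.1 h
      · rcases lt_trichotomy x ((n : ℕ) + m) with h' | h' | h'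
        · exact hfour m x ((n : ℕ) + m) (by omega) h h' p1 hpx p0
        · exact hne'.2 h'
        · exact hfour m ((n : ℕ) + m) x (by omega) (by omega) h' p1 p0 hpx
    have hsum : ∑ u ∈ (B N).filter (fun u => Even (2 * N - size u)),
        ((s (M.word u w) : ℚ) : ℝ) *
          (κ (2 * N - size u) * (Real.pi ^ (2 * N - size u) * a u)) =
        ((s (M.word [] w) : ℚ) : ℝ) * (κ (2 * N) * (Real.pi ^ (2 * N) * a [])) +
        ((s (M.word [n, m] w) : ℚ) : ℝ) * (κ (2 * N - ((n : ℕ) + m)) *
          (Real.pi ^ (2 * N - ((n : ℕ) + m)) * a [n, m])) := by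
      rw [Finset.sum_eq_add [] [n, m] (by simp)]
      · rw [size_nil, Nat.sub_zero, size_two]
      · rintro u hu ⟨hu1, hu2⟩
        rw [Finset.mem_filter] at hu
        have hu3 := hsize2 u hu.1
        have : s (M.word u w) = 0 := by
          by_contra hcu
          have f0 := hne _ hcu
          rcases u with _ | ⟨n', _ | ⟨m', _ | ⟨r', t⟩⟩⟩
          · exact hu1 rfl
          · -- odd
            have h2 := hu.2
            rw [size_one] at h2 hu3
            obtain ⟨c, hc'⟩ := n'.2.1
            obtain ⟨e, he⟩ := h2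
            omega
          · have f1 := tail_ne_zero M f0
            have q0 := pr_ne_zero M hk f0
            have q1 := pr_ne_zero M hk f1
            rw [size_two] at q0
            rw [size_one] at q1
            have gn' := n'.2.2
            have gm' := m'.2.2
            have r0 := hdeg _ (by omega) q0
            have r1 := hdeg _ (by omega) q1
            apply hu2
            have hm' : m' = m := Subtype.ext (by omega)
            have hn' : n' = n := Subtype.ext (by omega)
            rw [hm', hn']
          · exact hlen _ _ _ _ f0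
        rw [this]
        simp
      · intro h
        exact absurd (Finset.mem_filter.2 ⟨mem_B.2 (by simp), by simp⟩) h
      · intro h
        refine absurd (Finset.mem_filter.2 ⟨hmem, ?_⟩) h
        rw [size_two]
        obtain ⟨c, hc'⟩ := n.2.1
        obtain ⟨e, he⟩ := m.2.1
        exact ⟨N - (c + e + 1), by omega⟩
    rw [hsum, h0] at hE
    set c0 : ℚ := s (M.word [] w)
    set c2 : ℚ := s (M.word [n, m] w)
    refine hb n m hnm e0 (-(c0 * κ (2 * N)) / (c2 * κ (2 * N - ((n : ℕ) + m)))) ?_
    have hc2 : (c2 : ℝ) ≠ 0 := by exact_mod_cast hc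
    have hκ : ((κ (2 * N - ((n : ℕ) + m)) : ℚ) : ℝ) ≠ 0 := by exact_mod_cast κ_ne _
    have hpi : Real.pi ^ (2 * N - ((n : ℕ) + m)) ≠ 0 := pow_ne_zero _ Real.pi_ne_zero
    have h2N : Real.pi ^ (2 * N) =
        Real.pi ^ (2 * N - ((n : ℕ) + m)) * Real.pi ^ ((n : ℕ) + m) := by
      rw [← pow_add]
      congr 1
      omega
    rw [h2N] at hE
    have h3 : (c0 : ℝ) * κ (2 * N) * Real.pi ^ ((n : ℕ) + m) +
        c2 * κ (2 * N - ((n : ℕ) + m)) * a [n, m] = 0 := by
      have h4 : Real.pi ^ (2 * N - ((n : ℕ) + m)) * ((c0 : ℝ) * κ (2 * N) *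
          Real.pi ^ ((n : ℕ) + m) + c2 * κ (2 * N - ((n : ℕ) + m)) * a [n, m]) = 0 := by
        rw [← hE]
        ring
      exact (mul_eq_zero.1 h4).resolve_left hpi
    push_cast
    field_simp
    linear_combination h3
  -- the empty word
  have hnil : s (M.word [] w) = 0 := by
    have hsum : ∑ u ∈ (B N).filter (fun u => Even (2 * N - size u)),
        ((s (M.word u w) : ℚ) : ℝ) *
          (κ (2 * N - size u) * (Real.pi ^ (2 * N - size u) * a u)) =
        ((s (M.word [] w) : ℚ) : ℝ) * (κ (2 * N) * (Real.pi ^ (2 * N) * a [])) := by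
      rw [Finset.sum_eq_single []]
      · rw [size_nil, Nat.sub_zero]
      · rintro u hu hu1
        rw [Finset.mem_filter] at hu
        have hu3 := hsize2 u hu.1
        have : s (M.word u w) = 0 := by
          rcases u with _ | ⟨n', _ | ⟨m', _ | ⟨r', t⟩⟩⟩
          · exact absurd rfl hu1
          · exfalso
            have h2 := hu.2
            rw [size_one] at h2 hu3
            obtain ⟨c, hc'⟩ := n'.2.1
            obtain ⟨e, he⟩ := h2
            omega
          · exact htwo _ _ hu.1
          · by_contra hcu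
            exact hlen _ _ _ _ (hne _ hcu)
        rw [this]
        simp
      · intro h
        exact absurd (Finset.mem_filter.2 ⟨mem_B.2 (by simp), by simp⟩) h
    rw [hsum, h0, mul_one] at hE
    have h2 : ((κ (2 * N) : ℚ) : ℝ) * Real.pi ^ (2 * N) ≠ 0 :=
      mul_ne_zero (by exact_mod_cast κ_ne _) (pow_ne_zero _ Real.pi_ne_zero)
    exact_mod_cast (mul_eq_zero.1 hE).resolve_right h2
  -- words of length one
  have hodd : ∀ m : Letter, [m] ∈ B N → [m] ∈ (B N).filter (fun u => ¬ Even (2 * N - size u)) := by
    intro m hm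
    have hmN := hsize2 _ hm
    rw [size_one] at hmN
    refine Finset.mem_filter.2 ⟨hm, ?_⟩
    rw [size_one]
    rintro ⟨e, he⟩
    obtain ⟨c, hc⟩ := m.2.1
    omega
  have hrest : ∀ u ∈ (B N).filter (fun u => ¬ Even (2 * N - size u)),
      (∀ m : Letter, u ≠ [m]) → s (M.word u w) = 0 := by
    intro u hu hum
    rw [Finset.mem_filter] at hu
    rcases u with _ | ⟨n', _ | ⟨m', _ | ⟨r', t⟩⟩⟩
    · exact hnil
    · exact absurd rfl (hum n')
    · exact htwo _ _ hu.1
    · by_contra hcu
      exact hlen _ _ _ _ (hne _ hcu)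
  have hpair : ∀ m l : Letter, (m : ℕ) < l → [m] ∈ B N → [l] ∈ B N →
      s (M.word [m] w) ≠ 0 → s (M.word [l] w) ≠ 0 → False := by
    intro m l hml hm hl hcm hcl
    have em := hne _ hcm
    have el := hne _ hcl
    have pm := pr_ne_zero M hk em
    have pl := pr_ne_zero M hk el
    have hlN := hsize2 _ hl
    rw [size_one] at pm pl hlN
    have gm := m.2.2
    have hsum : ∑ u ∈ (B N).filter (fun u => ¬ Even (2 * N - size u)),
        ((s (M.word u w) : ℚ) : ℝ) *
          (κ (2 * N - size u) * (Real.pi ^ (2 * N - size u) * a u)) =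
        ((s (M.word [m] w) : ℚ) : ℝ) * (κ (2 * N - m) * (Real.pi ^ (2 * N - m) * zeta m)) +
        ((s (M.word [l] w) : ℚ) : ℝ) * (κ (2 * N - l) * (Real.pi ^ (2 * N - l) * zeta l)) := by
      rw [Finset.sum_eq_add [m] [l] (by
        intro h
        have : m = l := by simpa using h
        rw [this] at hml
        omega)]
      · rw [size_one, size_one, h1, h1]
      · rintro u hu ⟨hu1, hu2⟩
        have : s (M.word u w) = 0 := by
          by_cases hum : ∀ r : Letter, u ≠ [r]
          · exact hrest u hu hum
          · push Not at hum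
            obtain ⟨r, rfl⟩ := hum
            by_contra hcr
            have pr' := pr_ne_zero M hk (hne _ hcr)
            rw [size_one] at pr'
            have gr := r.2.2
            have hrm : (r : ℕ) ≠ m := fun h => hu1 (by rw [Subtype.ext h])
            have hrl : (r : ℕ) ≠ l := fun h => hu2 (by rw [Subtype.ext h])
            rcases lt_or_gt_of_ne hrm with h | h
            · exact hfour r m l (by omega) h hml pr' pm pl
            · rcases lt_or_gt_of_ne hrl with h' | h'
              · exact hfour m r l (by omega) h h' pm pr' pl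
              · exact hfour m l r (by omega) hml h' pm pl pr'
        rw [this]
        simp
      · intro h
        exact absurd (hodd m hm) h
      · intro h
        exact absurd (hodd l hl) h
    rw [hsum] at hO
    set cm : ℚ := s (M.word [m] w)
    set cl : ℚ := s (M.word [l] w)
    refine ha m l hml hlN em el (-(cm * κ (2 * N - m)) / (cl * κ (2 * N - l))) ?_
    have hcl' : (cl : ℝ) ≠ 0 := by exact_mod_cast hcl
    have hκ : ((κ (2 * N - l) : ℚ) : ℝ) ≠ 0 := by exact_mod_cast κ_ne _
    have hpi : Real.pi ^ (2 * N - (l : ℕ)) ≠ 0 := pow_ne_zero _ Real.pi_ne_zero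
    have h2N : Real.pi ^ (2 * N - (m : ℕ)) =
        Real.pi ^ (2 * N - (l : ℕ)) * Real.pi ^ ((l : ℕ) - m) := by
      rw [← pow_add]
      congr 1
      omega
    rw [h2N] at hO
    have h3 : (cm : ℝ) * κ (2 * N - m) * (Real.pi ^ ((l : ℕ) - m) * zeta m) +
        cl * κ (2 * N - l) * zeta l = 0 := by
      have h4 : Real.pi ^ (2 * N - (l : ℕ)) * ((cm : ℝ) * κ (2 * N - m) *
          (Real.pi ^ ((l : ℕ) - m) * zeta m) + cl * κ (2 * N - l) * zeta l) = 0 := by
        rw [← hO]
        ring
      exact (mul_eq_zero.1 h4).resolve_left hpi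
    push_cast
    field_simp
    linear_combination h3
  have hone : ∀ m : Letter, [m] ∈ B N → s (M.word [m] w) = 0 := by
    intro m hm
    by_contra hcm
    have hsum : ∑ u ∈ (B N).filter (fun u => ¬ Even (2 * N - size u)),
        ((s (M.word u w) : ℚ) : ℝ) *
          (κ (2 * N - size u) * (Real.pi ^ (2 * N - size u) * a u)) =
        ((s (M.word [m] w) : ℚ) : ℝ) * (κ (2 * N - m) * (Real.pi ^ (2 * N - m) * zeta m)) := by
      rw [Finset.sum_eq_single [m]]
      · rw [size_one, h1]
      · rintro u hu hu1
        have : s (M.word u w) = 0 := by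
          by_cases hum : ∀ r : Letter, u ≠ [r]
          · exact hrest u hu hum
          · push Not at hum
            obtain ⟨r, rfl⟩ := hum
            by_contra hcr
            have hrm : (r : ℕ) ≠ m := fun h => hu1 (by rw [Subtype.ext h])
            have hrB := (Finset.mem_filter.1 hu).1
            rcases lt_or_gt_of_ne hrm with h | h
            · exact hpair r m h hrB hm hcr hcm
            · exact hpair m r h hm hrB hcm hcr
        rw [this]
        simp
      · intro h
        exact absurd (hodd m hm) h
    rw [hsum] at hO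
    have h2 : ((κ (2 * N - m) : ℚ) : ℝ) * (Real.pi ^ (2 * N - (m : ℕ)) * zeta m) ≠ 0 :=
      mul_ne_zero (by exact_mod_cast κ_ne _)
        (mul_ne_zero (pow_ne_zero _ Real.pi_ne_zero) (zeta_pos m).ne')
    exact hcm (by exact_mod_cast (mul_eq_zero.1 hO).resolve_right h2)
  refine mper_zero M hN hk s fun u hu => ?_
  rcases u with _ | ⟨n', _ | ⟨m', _ | ⟨r', t⟩⟩⟩
  · exact hnil
  · exact hone _ hu
  · exact htwo _ _ hu
  · by_contra hcu
    exact hlen _ _ _ _ (hne _ hcu)

theorem rank_two (a : List Letter → ℝ) (h0 : a [] = 1) (h1 : ∀ n : Letter, a [n] = zeta n)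
    (N : ℕ) : HomRankInjective ℚ (fun u => (a u : ℂ)) N 2 := by
  intro V _ _ _ M hN hrk k w s hk hper
  have hthree : ∀ x y : ℕ, 0 < x → x < y → w ≠ 0 → M.pr (k + x) ≠ 0 → M.pr (k + y) ≠ 0 →
      False := by
    intro x y hx hxy hw h2 h3
    have hk0 : M.pr k ≠ 0 := by
      intro h
      apply hw
      rw [← hk, h]
      rfl
    have := card_le_finrank M {k, k + x, k + y} (by
      intro i hi
      simp only [Finset.mem_insert, Finset.mem_singleton] at hi
      rcases hi with rfl | rfl | rfl <;> assumption)
    have hc : ({k, k + (x : ℤ), k + y} : Finset ℤ).card = 3 := by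
      rw [Finset.card_insert_of_notMem, Finset.card_insert_of_notMem, Finset.card_singleton]
      · rw [Finset.mem_singleton]
        omega
      · simp only [Finset.mem_insert, Finset.mem_singleton]
        omega
    omega
  refine rank_three M hN (by omega) a h0 h1 hk s hper ?_ ?_
  · intro m l hml _ hm hl
    exfalso
    have e1 := pr_ne_zero M hk hm
    have e2 := pr_ne_zero M hk hl
    rw [size_one] at e1 e2
    have gm := m.2.2
    exact hthree m l (by omega) hml (tail_ne_zero M hm) e1 e2
  · intro n m _ hnm
    exfalso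
    have e0 := tail_ne_zero M hnm
    have e1 := pr_ne_zero M hk hnm
    have e2 := pr_ne_zero M hk e0
    rw [size_two] at e1
    rw [size_one] at e2
    have gm := m.2.2
    have gn := n.2.2
    exact hthree m ((n : ℕ) + m) (by omega) (by omega) (tail_ne_zero M e0) e2 e1

/-! ### motives given by matrices -/

/-- the motive with a homogeneous basis of given degrees and given matrices of the `σ_n` -/
def coord {d : ℕ} (deg : Fin d → ℤ) (S : Letter → Matrix (Fin d) (Fin d) ℚ)
    (hS : ∀ (n : Letter) i j, S n i j ≠ 0 → deg i = deg j + ((n : ℕ) : ℤ)) :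
    Motive ℚ (Fin d → ℚ) where
  pr k :=
    { toFun := fun v i => if deg i = k then v i else 0
      map_add' := by
        intro v w
        funext i
        by_cases h : deg i = k <;> simp [h]
      map_smul' := by
        intro c v
        funext i
        by_cases h : deg i = k <;> simp [h] }
  pr_pr := by
    intro k l v
    funext i
    by_cases hkl : k = l
    · subst hkl
      by_cases h : deg i = k <;> simp [h]
    · rw [if_neg hkl]
      by_cases h : deg i = k
      · have h' : deg i ≠ l := fun h' => hkl (h.symm.trans h')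
        simp [h']
      · simp [h]
  sum_pr := by
    classical
    refine ⟨Finset.univ.image deg, fun v => ?_⟩
    funext i
    rw [Finset.sum_apply]
    simp only [LinearMap.coe_mk, AddHom.coe_mk]
    rw [Finset.sum_ite_eq, if_pos (Finset.mem_image_of_mem _ (Finset.mem_univ i))]
  σ n := Matrix.mulVecLin (S n)
  raise := by
    intro n k v
    funext i
    show ∑ j, S n i j * (if deg j = k then v j else 0) =
      if deg i = k + ((n : ℕ) : ℤ) then ∑ j, S n i j * v j else 0
    split_ifs with h
    · refine Finset.sum_congr rfl fun j _ => ?_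
      by_cases hij : S n i j = 0
      · rw [hij, zero_mul, zero_mul]
      · rw [if_pos (by have := hS n i j hij; omega)]
    · refine Finset.sum_eq_zero fun j _ => ?_
      by_cases hij : S n i j = 0
      · rw [hij, zero_mul]
      · rw [if_neg (by have := hS n i j hij; omega), mul_zero]

theorem coord_width {d : ℕ} (deg : Fin d → ℤ) (S : Letter → Matrix (Fin d) (Fin d) ℚ)
    (hS : ∀ (n : Letter) i j, S n i j ≠ 0 → deg i = deg j + ((n : ℕ) : ℤ)) {N : ℕ}
    (hd : ∀ i, 0 ≤ deg i ∧ deg i ≤ N) : (coord deg S hS).Width N := by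
  have key : ∀ k, (coord deg S hS).pr k ≠ 0 → 0 ≤ k ∧ k ≤ N := by
    intro k hk
    by_contra h
    apply hk
    apply LinearMap.ext
    intro v
    funext i
    show (if deg i = k then v i else 0) = 0
    rw [if_neg]
    rintro rfl
    exact h (hd i)
  intro k l hk hl
  have h1 := key k hk
  have h2 := key l hl
  omega

theorem even_sub {m l : Letter} (h : (m : ℕ) < l) : Even ((l : ℕ) - m) := by
  obtain ⟨c, hc⟩ := m.2.1
  obtain ⟨e, he⟩ := l.2.1
  exact ⟨e - c, by omega⟩

theorem even_add (n m : Letter) : Even ((n : ℕ) + m) := by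
  obtain ⟨c, hc⟩ := m.2.1
  obtain ⟨e, he⟩ := n.2.1
  exact ⟨e + c + 1, by omega⟩

theorem cond_a (a : List Letter → ℝ) (h1 : ∀ n : Letter, a [n] = zeta n)
    {N : ℕ} (h : HomRankInjective ℚ (fun u => (a u : ℂ)) N 3) (m l : Letter) (hml : (m : ℕ) < l)
    (hlN : (l : ℕ) ≤ N) (q : ℚ) : zeta l ≠ q * (Real.pi ^ ((l : ℕ) - m) * zeta m) := by
  classical
  intro hq
  let deg : Fin 3 → ℤ := ![0, (m : ℕ), (l : ℕ)]
  let S : Letter → Matrix (Fin 3) (Fin 3) ℚ := fun p =>
    !![0, 0, 0; if p = m then 1 else 0, 0, 0; if p = l then 1 else 0, 0, 0]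
  have hS : ∀ (n : Letter) i j, S n i j ≠ 0 → deg i = deg j + ((n : ℕ) : ℤ) := by
    intro n i j hij
    fin_cases i <;> fin_cases j <;> simp [S] at hij
    · simp [deg, hij]
    · simp [deg, hij]
  let M := coord deg S hS
  have hM : M.Width N := coord_width deg S hS (by
    intro i
    fin_cases i
    · simp [deg]
    · show (0 : ℤ) ≤ ((m : ℕ) : ℤ) ∧ ((m : ℕ) : ℤ) ≤ N
      exact ⟨by positivity, by exact_mod_cast (by omega : (m : ℕ) ≤ N)⟩
    · show (0 : ℤ) ≤ ((l : ℕ) : ℤ) ∧ ((l : ℕ) : ℤ) ≤ N
      exact ⟨by positivity, by exact_mod_cast hlN⟩)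
  let w : Fin 3 → ℚ := ![1, 0, 0]
  have hw : M.pr 0 w = w := by
    funext i
    show (if deg i = 0 then w i else 0) = w i
    fin_cases i
    · simp [deg]
    · simp [w]
    · simp [w]
  have hσ : ∀ (p : Letter) (v : Fin 3 → ℚ), M.σ p v =
      ![0, (if p = m then 1 else 0) * v 0, (if p = l then 1 else 0) * v 0] := by
    intro p v
    show (S p).mulVec v = _
    funext i
    fin_cases i <;> simp [S, Matrix.mulVec, dotProduct, Fin.sum_univ_three]
  let x : ℚ := -(q / κ ((l : ℕ) - m))
  let s : Dual ℚ (Fin 3 → ℚ) :=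
    { toFun := fun v => x * v 1 + v 2
      map_add' := fun v w => by simp; ring
      map_smul' := fun c v => by simp; ring }
  have hsv : ∀ v : Fin 3 → ℚ, s v = x * v 1 + v 2 := fun v => rfl
  have hs1 : ∀ p : Letter, s (M.word [p] w) =
      x * (if p = m then 1 else 0) + (if p = l then 1 else 0) := by
    intro p
    show s (M.σ p w) = _
    rw [hσ, hsv]
    simp [w]
  have hs2 : ∀ (p p' : Letter) (t : List Letter), s (M.word (p :: p' :: t) w) = 0 := by
    intro p p' t
    show s (M.σ p (M.σ p' (M.word t w))) = 0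
    rw [hσ, hσ, hsv]
    simp
  have hper : per ℚ (fun u => (a u : ℂ)) (M.mper w s) = 0 := by
    rw [hom_period M hM _ hw]
    have hlm : m ≠ l := fun h => by rw [h] at hml; omega
    rw [Finset.sum_eq_add [m] [l] (by simpa using hlm)]
    · rw [hs1, hs1, if_pos rfl, if_neg hlm, if_neg (Ne.symm hlm), if_pos rfl, size_one, size_one,
        h1, h1, hq]
      have h3 : (2 * Real.pi * I : ℂ) ^ (-((0 : ℤ) + ((m : ℕ) : ℤ))) =
          (2 * Real.pi * I) ^ (-((0 : ℤ) + ((l : ℕ) : ℤ))) *
            ((κ ((l : ℕ) - m) * Real.pi ^ ((l : ℕ) - m) : ℝ) : ℂ) := by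
        rw [← pow_even (even_sub hml), ← zpow_natCast, ← zpow_add₀ two_pi_I_ne]
        congr 1
        push_cast [Nat.cast_sub hml.le]
        ring
      have hκ : ((κ ((l : ℕ) - m) : ℚ) : ℂ) ≠ 0 := by exact_mod_cast κ_ne _
      rw [h3]
      simp only [x]
      push_cast
      field_simp
      ring
    · rintro u _ ⟨hu1, hu2⟩
      have : s (M.word u w) = 0 := by
        rcases u with _ | ⟨p, _ | ⟨p', t⟩⟩
        · show s w = 0
          rw [hsv]
          simp [w]
        · rw [hs1, if_neg (fun h => hu1 (by rw [h])), if_neg (fun h => hu2 (by rw [h]))]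
          ring
        · exact hs2 _ _ _
      rw [this]
      simp
    · intro h
      exact absurd (mem_B.2 (by rw [size_one]; omega)) h
    · intro h
      exact absurd (mem_B.2 (by rw [size_one]; exact hlN)) h
  have h4 := h _ M hM (by simp) 0 w s hw hper
  have h5 := congrFun h4 (-((l : ℕ) : ℤ), [l])
  rw [mper_hom M hw, if_pos (by rw [size_one]; simp), hs1, if_pos rfl,
    if_neg (fun h => by rw [h] at hml; omega)] at h5
  simp at h5

theorem cond_b (a : List Letter → ℝ) (h0 : a [] = 1)
    {N : ℕ} (h : HomRankInjective ℚ (fun u => (a u : ℂ)) N 3) (n m : Letter)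
    (hN : (n : ℕ) + m ≤ N) (q : ℚ) : a [n, m] ≠ q * Real.pi ^ ((n : ℕ) + m) := by
  classical
  intro hq
  have gn := n.2.2
  have gm := m.2.2
  let deg : Fin 3 → ℤ := ![0, (m : ℕ), ((n : ℕ) : ℤ) + (m : ℕ)]
  let S : Letter → Matrix (Fin 3) (Fin 3) ℚ := fun p =>
    !![0, 0, 0; if p = m then 1 else 0, 0, 0; 0, if p = n then 1 else 0, 0]
  have hS : ∀ (n : Letter) i j, S n i j ≠ 0 → deg i = deg j + ((n : ℕ) : ℤ) := by
    intro p i j hij
    fin_cases i <;> fin_cases j <;> simp [S] at hij
    · simp [deg, hij]
    · simp only [deg, hij]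
      show ((n : ℕ) : ℤ) + ((m : ℕ) : ℤ) = ((m : ℕ) : ℤ) + ((n : ℕ) : ℤ)
      ring
  let M := coord deg S hS
  have hM : M.Width N := coord_width deg S hS (by
    intro i
    fin_cases i
    · simp [deg]
    · show (0 : ℤ) ≤ ((m : ℕ) : ℤ) ∧ ((m : ℕ) : ℤ) ≤ N
      exact ⟨by positivity, by exact_mod_cast (by omega : (m : ℕ) ≤ N)⟩
    · show (0 : ℤ) ≤ ((n : ℕ) : ℤ) + ((m : ℕ) : ℤ) ∧ ((n : ℕ) : ℤ) + ((m : ℕ) : ℤ) ≤ N
      exact ⟨by positivity, by exact_mod_cast hN⟩)
  let w : Fin 3 → ℚ := ![1, 0, 0]
  have hw : M.pr 0 w = w := by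
    funext i
    show (if deg i = 0 then w i else 0) = w i
    fin_cases i
    · simp [deg]
    · simp [w]
    · simp [w]
  have hσ : ∀ (p : Letter) (v : Fin 3 → ℚ), M.σ p v =
      ![0, (if p = m then 1 else 0) * v 0, (if p = n then 1 else 0) * v 1] := by
    intro p v
    show (S p).mulVec v = _
    funext i
    fin_cases i <;> simp [S, Matrix.mulVec, dotProduct, Fin.sum_univ_three]
  let x : ℚ := -(q / κ ((n : ℕ) + m))
  let s : Dual ℚ (Fin 3 → ℚ) :=
    { toFun := fun v => x * v 0 + v 2
      map_add' := fun v w => by simp; ring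
      map_smul' := fun c v => by simp; ring }
  have hsv : ∀ v : Fin 3 → ℚ, s v = x * v 0 + v 2 := fun v => rfl
  have hs0 : s (M.word [] w) = x := by
    show s w = x
    rw [hsv]
    simp [w]
  have hs1 : ∀ p : Letter, s (M.word [p] w) = 0 := by
    intro p
    show s (M.σ p w) = _
    rw [hσ, hsv]
    simp [w]
  have hs2 : ∀ p p' : Letter, s (M.word [p, p'] w) =
      (if p = n then 1 else 0) * (if p' = m then 1 else 0) := by
    intro p p'
    show s (M.σ p (M.σ p' w)) = _
    rw [hσ, hσ, hsv]
    simp [w]
  have hs3 : ∀ (p p' p'' : Letter) (t : List Letter),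
      s (M.word (p :: p' :: p'' :: t) w) = 0 := by
    intro p p' p'' t
    show s (M.σ p (M.σ p' (M.σ p'' (M.word t w)))) = 0
    rw [hσ, hσ, hσ, hsv]
    simp
  have hper : per ℚ (fun u => (a u : ℂ)) (M.mper w s) = 0 := by
    rw [hom_period M hM _ hw]
    rw [Finset.sum_eq_add [] [n, m] (by simp)]
    · rw [hs0, hs2, if_pos rfl, if_pos rfl, size_two, size_nil, h0, hq]
      have h3 : (1 : ℂ) = (2 * Real.pi * I : ℂ) ^ (-((0 : ℤ) + (((n : ℕ) + (m : ℕ) : ℕ) : ℤ))) *
            ((κ ((n : ℕ) + m) * Real.pi ^ ((n : ℕ) + (m : ℕ)) : ℝ) : ℂ) := by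
        rw [← pow_even (even_add n m), ← zpow_natCast, ← zpow_add₀ two_pi_I_ne, zero_add,
          neg_add_cancel, zpow_zero]
      have hκ : ((κ ((n : ℕ) + m) : ℚ) : ℂ) ≠ 0 := by exact_mod_cast κ_ne _
      have h4 : (2 * Real.pi * I : ℂ) ^ (-((0 : ℤ) + ((0 : ℕ) : ℤ))) = 1 := by simp
      rw [h4]
      simp only [x]
      push_cast at h3 ⊢
      have h5 : (-((q : ℂ) / (κ ((n : ℕ) + m) : ℚ))) * (1 * 1) + 1 * 1 *
          ((2 * Real.pi * I : ℂ) ^ (-((0 : ℤ) + (((n : ℕ) : ℤ) + ((m : ℕ) : ℤ)))) *
            (q * Real.pi ^ ((n : ℕ) + (m : ℕ)))) =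
          (q / (κ ((n : ℕ) + m) : ℚ)) * (-1 +
            (2 * Real.pi * I : ℂ) ^ (-((0 : ℤ) + (((n : ℕ) : ℤ) + ((m : ℕ) : ℤ)))) *
            ((κ ((n : ℕ) + m) : ℚ) * Real.pi ^ ((n : ℕ) + (m : ℕ)))) := by
        field_simp
      rw [h5, ← h3]
      ring
    · rintro u _ ⟨hu1, hu2⟩
      have : s (M.word u w) = 0 := by
        rcases u with _ | ⟨p, _ | ⟨p', _ | ⟨p'', t⟩⟩⟩
        · exact absurd rfl hu1
        · exact hs1 _
        · rw [hs2]
          by_cases hp : p = n
          · rw [if_neg (fun h' : p' = m => hu2 (by rw [hp, h'])), mul_zero]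
          · rw [if_neg hp, zero_mul]
        · exact hs3 _ _ _ _
      rw [this]
      simp
    · intro h
      exact absurd (mem_B.2 (by simp)) h
    · intro h
      exact absurd (mem_B.2 (by rw [size_two]; exact hN)) h
  have h4 := h _ M hM (by simp) 0 w s hw hper
  have h5 := congrFun h4 (-(((n : ℕ) + (m : ℕ) : ℕ) : ℤ), [n, m])
  rw [mper_hom M hw, if_pos (by rw [size_two]; simp), hs2, if_pos rfl, if_pos rfl] at h5
  simp at h5

theorem result (a : List Letter → ℝ) (h0 : a [] = 1) (h1 : ∀ n : Letter, a [n] = zeta n) :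
    -- (1) graded zero blocks of defect `j` and homogeneous periods of motives of rank `j + 2`
    (∀ (K : Type) [Field K] [Algebra K ℂ] (N j : ℕ),
      GrBlockInjective K (fun u => (a u : ℂ)) N j ↔
        HomRankInjective K (fun u => (a u : ℂ)) N (j + 2)) ∧
    -- (2) the structure conjecture in weights `≤ N`
    (∀ N : ℕ, (∀ k ≤ N, WeightIndependent a k) ↔
      ∀ j, GrBlockInjective ℚ (fun u => (a u : ℂ)) N j) ∧
    -- (3) defect zero
    (∀ N : ℕ, GrBlockInjective ℚ (fun u => (a u : ℂ)) N 0) ∧
    -- (4) defect one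
    (∀ N : ℕ, GrBlockInjective ℚ (fun u => (a u : ℂ)) N 1 ↔
      (∀ m l : Letter, (m : ℕ) < l → (l : ℕ) ≤ N →
        Irrational (zeta l / (Real.pi ^ ((l : ℕ) - m) * zeta m))) ∧
      (∀ n m : Letter, (n : ℕ) + m ≤ N → Irrational (a [n, m] / Real.pi ^ ((n : ℕ) + m)))) := by
  have hmain : ∀ (K : Type) [Field K] [Algebra K ℂ] (N j : ℕ),
      GrBlockInjective K (fun u => (a u : ℂ)) N j ↔
        HomRankInjective K (fun u => (a u : ℂ)) N (j + 2) := by
    intro K _ _ N j
    exact ⟨rank_of_blocks _, blocks _ (by rw [h0, Complex.ofReal_one])⟩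
  refine ⟨hmain, fun N => ⟨fun h j => ?_, fun h k hk => ?_⟩, fun N => ?_, fun N => ?_⟩
  · exact (hmain ℚ N j).2 (hom_of_weight a h _)
  · refine weight_of_hom a (fun r => ?_) k hk
    intro V _ _ _ M hM hr
    exact (hmain ℚ N r).1 (h r) V M hM (by omega)
  · exact (hmain ℚ N 0).2 (rank_two a h0 h1 N)
  · rw [hmain ℚ N 1]
    constructor
    · intro h
      refine ⟨fun m l hml hl => ?_, fun n m hnm => ?_⟩
      · rintro ⟨q, hq⟩
        refine cond_a a h1 h m l hml hl q ?_
        have h2 : Real.pi ^ ((l : ℕ) - m) * zeta m ≠ 0 :=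
          mul_ne_zero (pow_ne_zero _ Real.pi_ne_zero) (zeta_pos m).ne'
        rw [hq, div_mul_cancel₀ _ h2]
      · rintro ⟨q, hq⟩
        refine cond_b a h0 h n m hnm q ?_
        rw [hq, div_mul_cancel₀ _ (pow_ne_zero _ Real.pi_ne_zero)]
    · rintro ⟨ha, hb⟩
      intro V _ _ _ M hM hr k w s hk hper
      refine rank_three M hM hr a h0 h1 hk s hper ?_ ?_
      · intro m l hml hl _ _ q hq
        refine ha m l hml hl ⟨q, ?_⟩
        have h2 : Real.pi ^ ((l : ℕ) - m) * zeta m ≠ 0 :=
          mul_ne_zero (pow_ne_zero _ Real.pi_ne_zero) (zeta_pos m).ne'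
        rw [hq, mul_div_cancel_right₀ _ h2]
      · intro n m hnm _ q hq
        refine hb n m hnm ⟨q, ?_⟩
        rw [hq, mul_div_cancel_right₀ _ (pow_ne_zero _ Real.pi_ne_zero)]

end Pool.Agent.Results.MP_f3dc73_nt.RankAndDefect
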